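import Mathlib

/-!
# Families with the same relations are conjugate

`Ω` algebraically closed over `k`, `y`, `y'` finite families in `Ω` with the same relations over `k`:
there is an automorphism of `Ω / k` which maps `y` to `y'`.
-/

set_option autoImplicit false

namespace Pool.Agent.TIFP

open MvPolynomial Algebra

universe u v w

/-- two algebraically closed fields with equipotent transcendence bases are isomorphic -/
theorem exists_algEquiv_of_basis {R : Type*} {K : Type*} {L : Type*} [Field R] [Field K] [Field L]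
    [Algebra R K] [Algebra R L] [IsAlgClosed K] [IsAlgClosed L] {ι κ : Type*} {v : ι → K}
    {w : κ → L} (hv : IsTranscendenceBasis R v) (hw : IsTranscendenceBasis R w) (e : ι ≃ κ) :
    Nonempty (K ≃ₐ[R] L) := by
  let _ := IsAlgClosed.isAlgClosure_of_transcendence_basis v hv
  let _ := IsAlgClosed.isAlgClosure_of_transcendence_basis w hw
  let f : Algebra.adjoin R (Set.range v) ≃ₐ[R] Algebra.adjoin R (Set.range w) :=
    hv.1.aevalEquiv.symm.trans ((renameEquiv R e).trans hw.1.aevalEquiv)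
  let g : K ≃+* L := IsAlgClosure.equivOfEquiv K L f.toRingEquiv
  refine ⟨AlgEquiv.ofRingEquiv (f := g) ?_⟩
  intro r
  have h1 : algebraMap R K r = algebraMap (Algebra.adjoin R (Set.range v)) K (algebraMap R _ r) := rfl
  rw [h1]
  change IsAlgClosure.equivOfEquiv K L f.toRingEquiv _ = _
  rw [IsAlgClosure.equivOfEquiv_algebraMap]
  have h2 : f.toRingEquiv (algebraMap R _ r) = algebraMap R _ r := f.commutes r
  rw [h2]
  rfl

open Cardinal in
/-- two embeddings of a field of finite transcendence degree in an algebraically closed field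
are conjugate -/
theorem exists_aut {k : Type u} {A : Type v} {Ω : Type w} [Field k] [Field A] [Field Ω]
    [Algebra k A] [Algebra k Ω] [IsAlgClosed Ω] (f g : A →ₐ[k] Ω) (h : trdeg k A < ℵ₀) :
    ∃ σ : Ω ≃ₐ[k] Ω, ∀ a, σ (f a) = g a := by
  let a1 : Algebra A Ω := (f : A →+* Ω).toAlgebra
  let a2 : Algebra A Ω := (g : A →+* Ω).toAlgebra
  have t1 : @IsScalarTower k A Ω _ a1.toSMul _ :=
    @IsScalarTower.of_algebraMap_eq k A Ω _ _ _ _ a1 _ fun r => (f.commutes r).symm
  have t2 : @IsScalarTower k A Ω _ a2.toSMul _ :=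
    @IsScalarTower.of_algebraMap_eq k A Ω _ _ _ _ a2 _ fun r => (g.commutes r).symm
  have n1 : @FaithfulSMul A Ω a1.toSMul :=
    (@faithfulSMul_iff_algebraMap_injective A Ω _ _ a1).2 f.injective
  have n2 : @FaithfulSMul A Ω a2.toSMul :=
    (@faithfulSMul_iff_algebraMap_injective A Ω _ _ a2).2 g.injective
  have e1 := @lift_trdeg_add_eq k A Ω _ _ _ _ _ a1 t1 _ _ _ n1
  have e2 := @lift_trdeg_add_eq k A Ω _ _ _ _ _ a2 t2 _ _ _ n2
  have e3 : @trdeg A Ω _ _ a1 = @trdeg A Ω _ _ a2 := by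
    have := Cardinal.eq_of_add_eq_add_left (e1.trans e2.symm) (by
      rw [← lift_aleph0.{w, v}]
      exact lift_lt.2 h)
    exact lift_injective this
  obtain ⟨s, hs⟩ := @exists_isTranscendenceBasis A Ω _ _ a1 n1
  obtain ⟨t, ht⟩ := @exists_isTranscendenceBasis A Ω _ _ a2 n2
  have c1 := @IsTranscendenceBasis.cardinalMk_eq_trdeg A Ω _ _ a1 _ _ _ _ hs
  have c2 := @IsTranscendenceBasis.cardinalMk_eq_trdeg A Ω _ _ a2 _ _ _ _ ht
  obtain ⟨e⟩ := Cardinal.eq.1 (c1.trans (e3.trans c2.symm))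
  obtain ⟨σ⟩ := @exists_algEquiv_of_basis A Ω Ω _ _ _ a1 a2 _ _ _ _ _ _ hs ht e
  let τ : Ω ≃+* Ω := @AlgEquiv.toRingEquiv A Ω Ω _ _ _ a1 a2 σ
  have hσ : ∀ a, τ (f a) = g a := fun a => @AlgEquiv.commutes A Ω Ω _ _ _ a1 a2 σ a
  refine ⟨AlgEquiv.ofRingEquiv (f := τ) fun r => ?_, hσ⟩
  have := hσ (algebraMap k A r)
  rw [f.commutes, g.commutes] at this
  exact this

/-- **Conjugacy.** Two finite families with the same relations are conjugate. -/
theorem exists_conj {k : Type u} {Ω : Type w} [Field k] [Field Ω] [Algebra k Ω] [IsAlgClosed Ω]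
    {ι : Type v} [Finite ι] (y y' : ι → Ω)
    (h : RingHom.ker (aeval y : MvPolynomial ι k →ₐ[k] Ω) =
      RingHom.ker (aeval y' : MvPolynomial ι k →ₐ[k] Ω)) :
    ∃ σ : Ω ≃ₐ[k] Ω, ∀ i, σ (y i) = y' i := by
  set I : Ideal (MvPolynomial ι k) := RingHom.ker (aeval y : MvPolynomial ι k →ₐ[k] Ω) with hI
  have hp : I.IsPrime := RingHom.ker_isPrime _
  let R := MvPolynomial ι k ⧸ I
  let F := FractionRing R
  let f0 : R →ₐ[k] Ω := Ideal.kerLiftAlg (aeval y : MvPolynomial ι k →ₐ[k] Ω)
  have hf0 : Function.Injective f0 := Ideal.kerLiftAlg_injective _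
  let g0 : R →ₐ[k] Ω := Ideal.Quotient.liftₐ I (aeval y') fun a ha => by
    rw [h] at ha
    exact ha
  have hg0 : Function.Injective g0 := by
    rw [injective_iff_map_eq_zero]
    intro a ha
    obtain ⟨a, rfl⟩ := Ideal.Quotient.mk_surjective a
    rw [Ideal.Quotient.eq_zero_iff_mem, h]
    exact ha
  let f : F →ₐ[k] Ω := IsFractionRing.liftAlgHom hf0
  let g : F →ₐ[k] Ω := IsFractionRing.liftAlgHom hg0
  have htr : trdeg k F < Cardinal.aleph0 := by
    have h1 : trdeg k R < Cardinal.aleph0 := trdeg_lt_aleph0_of_finiteType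
    have h2 := trdeg_add_eq k R (A := F)
    have h4 : Algebra.IsAlgebraic R F := IsLocalization.isAlgebraic F (nonZeroDivisors R)
    have h3 : trdeg R F = 0 := trdeg_eq_zero
    rw [h3, add_zero] at h2
    rw [← h2]
    exact h1
  obtain ⟨σ, hσ⟩ := exists_aut f g htr
  refine ⟨σ, fun i => ?_⟩
  have := hσ (algebraMap R F (Ideal.Quotient.mk I (X i)))
  have hf : f (algebraMap R F (Ideal.Quotient.mk I (X i))) = y i := by
    change IsFractionRing.liftAlgHom hf0 _ = _
    rw [IsFractionRing.liftAlgHom_apply, IsFractionRing.lift_algebraMap]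
    change (aeval y : MvPolynomial ι k →ₐ[k] Ω) (X i) = _
    rw [aeval_X]
  have hg : g (algebraMap R F (Ideal.Quotient.mk I (X i))) = y' i := by
    change IsFractionRing.liftAlgHom hg0 _ = _
    rw [IsFractionRing.liftAlgHom_apply, IsFractionRing.lift_algebraMap]
    change (aeval y' : MvPolynomial ι k →ₐ[k] Ω) (X i) = _
    rw [aeval_X]
  rw [hf, hg] at this
  exact this

end Pool.Agent.TIFP
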