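import Mathlib

/-!
# Rational subspaces of a vector space with a basis

`V` is a vector space over `Ω` with the basis `e`, `K` a subfield of `Ω`. A subspace `W` of `V` is
rational over `K` if it is spanned by vectors with coordinates in `K`.
-/

set_option autoImplicit false

namespace Pool.Agent.TIFP

variable {Ω V ι : Type*} [Field Ω] [AddCommGroup V] [Module Ω V] (e : Module.Basis ι Ω V)

/-- the coordinates are in `K` -/
def CfV (K : Set Ω) (x : V) : Prop := ∀ i, e.repr x i ∈ K

/-- the subspace is spanned by vectors with coordinates in `K` -/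
def RatV (K : Set Ω) (W : Submodule Ω V) : Prop := W = Submodule.span Ω {x | x ∈ W ∧ CfV e K x}

/-- an additive map applied to the coordinates -/
noncomputable def pm (f : Ω →+ Ω) : V →+ V where
  toFun x := e.repr.symm (Finsupp.mapRange f (map_zero f) (e.repr x))
  map_zero' := by simp
  map_add' x y := by
    rw [map_add, Finsupp.mapRange_add (map_add f), map_add]

theorem pm_repr (f : Ω →+ Ω) (x : V) (i : ι) : e.repr (pm e f x) i = f (e.repr x i) := by
  change e.repr (e.repr.symm _) i = _
  rw [LinearEquiv.apply_symm_apply, Finsupp.mapRange_apply]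

theorem pm_basis (f : Ω →+ Ω) (c : Ω) (i : ι) : pm e f (c • e i) = f c • e i := by
  apply e.repr.injective
  ext j
  rw [pm_repr, map_smul, map_smul, Finsupp.smul_apply, Finsupp.smul_apply, e.repr_self]
  by_cases h : i = j
  · subst h
    simp
  · rw [Finsupp.single_eq_of_ne' h]
    simp

/-- a `K`-linear functional as an additive map of `Ω` -/
noncomputable def fn {K : Subfield Ω} (π : Ω →ₗ[K] K) : Ω →+ Ω :=
  (K.subtype : K →+ Ω).comp π.toAddMonoidHom

theorem fn_apply {K : Subfield Ω} (π : Ω →ₗ[K] K) (a : Ω) : fn π a = (π a : Ω) := rfl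

theorem fn_mem {K : Subfield Ω} (π : Ω →ₗ[K] K) (a : Ω) : fn π a ∈ K := (π a).2

theorem fn_mul {K : Subfield Ω} (π : Ω →ₗ[K] K) (a c : Ω) (hc : c ∈ K) :
    fn π (c * a) = c * fn π a := by
  rw [fn_apply, fn_apply]
  have := π.map_smul (⟨c, hc⟩ : K) a
  have h2 : (⟨c, hc⟩ : K) • a = c * a := rfl
  rw [h2] at this
  rw [this]
  rfl

theorem pm_smul {K : Subfield Ω} (π : Ω →ₗ[K] K) (c : Ω) (x : V) (hx : CfV e K x) :
    pm e (fn π) (c • x) = fn π c • x := by
  apply e.repr.injective
  ext j
  rw [pm_repr, map_smul, map_smul, Finsupp.smul_apply, Finsupp.smul_apply, smul_eq_mul, smul_eq_mul,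
    mul_comm, fn_mul _ _ _ (hx j), mul_comm]

theorem pm_cf {K : Subfield Ω} (π : Ω →ₗ[K] K) (x : V) : CfV e K (pm e (fn π) x) := fun i => by
  rw [pm_repr]
  exact fn_mem π _

/-- Every vector is a combination of its images under functionals. -/
theorem exists_decomp (K : Subfield Ω) (x : V) :
    ∃ (m : ℕ) (c : Fin m → Ω) (π : Fin m → Ω →ₗ[K] K), x = ∑ i, c i • pm e (fn (π i)) x := by
  classical
  set S : Set Ω := Set.range (fun i : (e.repr x).support => e.repr x i) with hS
  have hfin : S.Finite := Set.finite_range _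
  have : FiniteDimensional K (Submodule.span K S) := FiniteDimensional.span_of_finite K hfin
  let B := Module.finBasis K (Submodule.span K S)
  have hπ : ∀ i, ∃ π : Ω →ₗ[K] K, ∀ a : Submodule.span K S, π a = B.repr a i := by
    intro i
    obtain ⟨π, hπ⟩ := LinearMap.exists_extend (B.coord i)
    exact ⟨π, fun a => by
      have := LinearMap.congr_fun hπ a
      simpa using this⟩
  choose π hπ using hπ
  refine ⟨_, fun i => (B i : Ω), π, ?_⟩
  apply e.repr.injective
  ext j
  rw [map_sum, Finsupp.coe_finsetSum, Finset.sum_apply]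
  have h1 : e.repr x j ∈ Submodule.span K S := by
    by_cases hj : j ∈ (e.repr x).support
    · exact Submodule.subset_span ⟨⟨j, hj⟩, rfl⟩
    · rw [Finsupp.notMem_support_iff.1 hj]
      exact Submodule.zero_mem _
  have h2 := congrArg (Subtype.val : Submodule.span K S → Ω) (B.sum_repr ⟨e.repr x j, h1⟩)
  simp only [AddSubmonoidClass.coe_finsetSum] at h2
  refine h2.symm.trans (Finset.sum_congr rfl fun i _ => ?_)
  rw [map_smul, Finsupp.smul_apply, pm_repr, fn_apply, smul_eq_mul, mul_comm]
  have h4 : π i (e.repr x j) = B.repr ⟨e.repr x j, h1⟩ i := hπ i ⟨e.repr x j, h1⟩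
  rw [h4]
  rfl

theorem ratV_iff_pm (K : Subfield Ω) (W : Submodule Ω V) :
    RatV e (K : Set Ω) W ↔ ∀ π : Ω →ₗ[K] K, ∀ x ∈ W, pm e (fn π) x ∈ W := by
  constructor
  · intro h π x hx
    rw [h] at hx
    refine Submodule.span_induction (p := fun x _ => ∀ c : Ω, pm e (fn π) (c • x) ∈ W) ?_ ?_ ?_ ?_ hx 1
      |> fun h => by simpa using h
    · intro y hy c
      rw [pm_smul e π c y hy.2]
      exact W.smul_mem _ hy.1
    · intro c
      simp
    · intro y z _ _ hy hz c
      rw [smul_add, map_add]
      exact W.add_mem (hy c) (hz c)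
    · intro a y _ hy c
      rw [smul_smul]
      exact hy _
  · intro h
    refine le_antisymm (fun x hx => ?_) (Submodule.span_le.2 fun x hx => hx.1)
    obtain ⟨m, c, π, hsum⟩ := exists_decomp e K x
    rw [hsum]
    exact Submodule.sum_mem _ fun i _ => Submodule.smul_mem _ _
      (Submodule.subset_span ⟨h (π i) x hx, pm_cf e (π i) x⟩)

/-- **Structure constants.** There are constants `c i j`, depending only on `W`, such that `W` is
rational over `K` if all `c i j` are in `K`; every additive map of `Ω` with `f 1 = 1` such that `W` is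
stable under the application of `f` to the coordinates fixes the `c i j`. -/
theorem exists_struct (W : Submodule Ω V) :
    ∃ c : ι → ι → Ω, (∀ K : Subfield Ω, (∀ i j, c i j ∈ K) → RatV e (K : Set Ω) W) ∧
      (∀ f : Ω →+ Ω, f 1 = 1 → (∀ x ∈ W, pm e f x ∈ W) → ∀ i j, f (c i j) = c i j) := by
  classical
  let v : ι → V ⧸ W := fun i => W.mkQ (e i)
  have hv : Submodule.span Ω (Set.range v) = ⊤ := by
    have h1 : Set.range v = W.mkQ '' Set.range e := by
      rw [← Set.range_comp]
      rfl
    rw [h1, Submodule.span_image, e.span_eq, Submodule.map_top, Submodule.range_mkQ]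
  obtain ⟨κ, a, _, hspan, hli⟩ := exists_linearIndependent' Ω v
  let b : Module.Basis κ Ω (V ⧸ W) := Module.Basis.mk hli (by rw [hspan, hv])
  have hb : ∀ β, b β = v (a β) := fun β => by
    rw [Module.Basis.mk_apply]
    rfl
  let ψ : (V ⧸ W) →ₗ[Ω] V := b.constr Ω fun β => e (a β)
  have hψb : ∀ β, ψ (b β) = e (a β) := fun β => b.constr_basis Ω _ β
  have hsec : ∀ z, W.mkQ (ψ z) = z := by
    intro z
    have h1 : W.mkQ.comp ψ = LinearMap.id := b.ext fun β => by
      rw [LinearMap.comp_apply, hψb, hb]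
      rfl
    exact LinearMap.congr_fun h1 z
  have hinj : ∀ z z', W.mkQ (ψ z) = W.mkQ (ψ z') → ψ z = ψ z' := by
    intro z z' h
    rw [hsec, hsec] at h
    rw [h]
  have hrange : ∀ (f : Ω →+ Ω) (z : V ⧸ W), ∃ z', pm e f (ψ z) = ψ z' := by
    intro f z
    obtain ⟨z, rfl⟩ := b.repr.symm.surjective z
    induction z using Finsupp.induction_linear with
    | zero => exact ⟨0, by simp⟩
    | add z w hz hw =>
      obtain ⟨z', hz'⟩ := hz
      obtain ⟨w', hw'⟩ := hw
      exact ⟨z' + w', by rw [map_add, map_add, map_add, hz', hw', map_add]⟩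
    | single β c =>
      refine ⟨f c • b β, ?_⟩
      rw [Module.Basis.repr_symm_single, map_smul, hψb, pm_basis, map_smul, hψb]
  refine ⟨fun i j => e.repr (ψ (v i)) j, ?_, ?_⟩
  · intro K hK
    refine le_antisymm (fun x hx => ?_) (Submodule.span_le.2 fun x hx => hx.1)
    have h1 : x - ψ (W.mkQ x) = x := by
      have : W.mkQ x = 0 := by
        rw [Submodule.mkQ_apply, Submodule.Quotient.mk_eq_zero]
        exact hx
      rw [this, map_zero, sub_zero]
    have h2 : x - ψ (W.mkQ x) = (e.repr x).sum fun i r => r • (e i - ψ (v i)) := by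
      have h3 : ∀ y, y - ψ (W.mkQ y) = ((LinearMap.id : V →ₗ[Ω] V) - ψ.comp W.mkQ) y := fun _ => rfl
      rw [h3]
      conv_lhs => rw [← e.linearCombination_repr x]
      rw [Finsupp.linearCombination_apply, map_finsuppSum]
      refine Finsupp.sum_congr fun i _ => ?_
      rw [map_smul]
      rfl
    rw [← h1, h2]
    refine Submodule.sum_mem _ fun i _ => Submodule.smul_mem _ _ (Submodule.subset_span ⟨?_, ?_⟩)
    · rw [← Submodule.Quotient.mk_eq_zero, ← Submodule.mkQ_apply, map_sub, hsec]
      exact sub_self _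
    · intro j
      rw [map_sub, Finsupp.sub_apply, e.repr_self]
      refine K.sub_mem ?_ (hK i j)
      by_cases h : i = j
      · subst h
        rw [Finsupp.single_eq_same]
        exact K.one_mem
      · rw [Finsupp.single_eq_of_ne' h]
        exact K.zero_mem
  · intro f hf1 hf i j
    obtain ⟨z', hz'⟩ := hrange f (v i)
    have h1 : e i - ψ (v i) ∈ W := by
      rw [← Submodule.Quotient.mk_eq_zero, ← Submodule.mkQ_apply, map_sub, hsec]
      exact sub_self _
    have h2 := hf _ h1
    have h3 : pm e f (e i) = e i := by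
      have := pm_basis e f 1 i
      rwa [one_smul, hf1, one_smul] at this
    rw [map_sub, h3] at h2
    have h4 : W.mkQ (ψ (v i)) = W.mkQ (pm e f (ψ (v i))) := by
      rw [← sub_eq_zero, ← map_sub, Submodule.mkQ_apply, Submodule.Quotient.mk_eq_zero]
      have := W.sub_mem h2 h1
      convert this using 1
      abel
    rw [hz'] at h4
    have h5 := hinj _ _ h4
    rw [← hz'] at h5
    have h6 := congrArg (fun x => e.repr x j) h5
    simp only [pm_repr] at h6
    exact h6.symm

/-- there is a `K`-linear functional with value `1` at `1` -/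
theorem exists_fn (K : Subfield Ω) : ∃ π : Ω →ₗ[K] K, fn π 1 = 1 := by
  obtain ⟨π, hπ⟩ := LinearMap.exists_leftInverse_of_injective (Algebra.linearMap K Ω)
    (LinearMap.ker_eq_bot.2 (algebraMap K Ω).injective)
  refine ⟨π, ?_⟩
  have h1 := LinearMap.congr_fun hπ 1
  rw [LinearMap.comp_apply, Algebra.linearMap_apply, map_one, LinearMap.id_apply] at h1
  rw [fn_apply, h1]
  rfl

/-- **Fields of definition.** -/
theorem exists_struct' (W : Submodule Ω V) :
    ∃ c : ι → ι → Ω, (∀ K : Subfield Ω, RatV e (K : Set Ω) W ↔ ∀ i j, c i j ∈ K) ∧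
      (∀ f : Ω →+ Ω, f 1 = 1 → (∀ x ∈ W, pm e f x ∈ W) → ∀ i j, f (c i j) = c i j) := by
  obtain ⟨c, h1, h2⟩ := exists_struct e W
  refine ⟨c, fun K => ⟨fun h i j => ?_, h1 K⟩, h2⟩
  obtain ⟨π, hπ⟩ := exists_fn K
  rw [← h2 (fn π) hπ ((ratV_iff_pm e K W).1 h π) i j]
  exact fn_mem π _

/-- rational over `K` and over `L`: rational over the intersection -/
theorem RatV.inf {K L M : Subfield Ω} {W : Submodule Ω V} (hK : RatV e (K : Set Ω) W)
    (hL : RatV e (L : Set Ω) W) (h : ∀ x, x ∈ K → x ∈ L → x ∈ M) : RatV e (M : Set Ω) W := by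
  obtain ⟨c, hc, _⟩ := exists_struct' e W
  rw [hc] at hK hL ⊢
  exact fun i j => h _ (hK i j) (hL i j)

/-- a bigger field -/
theorem RatV.mono {K L : Subfield Ω} {W : Submodule Ω V} (hK : RatV e (K : Set Ω) W) (h : K ≤ L) :
    RatV e (L : Set Ω) W :=
  RatV.inf e hK hK fun _ hx _ => h hx

/-- A subspace stable under the automorphisms of a set is rational over every subfield which contains
the elements fixed by these. -/
theorem ratV_of_stable (G : Set (Ω →+* Ω)) {K : Subfield Ω} {W : Submodule Ω V}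
    (hW : ∀ σ ∈ G, ∀ x ∈ W, pm e (σ : Ω →+ Ω) x ∈ W) (hG : ∀ x : Ω, (∀ σ ∈ G, σ x = x) → x ∈ K) :
    RatV e (K : Set Ω) W := by
  obtain ⟨c, hc, h2⟩ := exists_struct' e W
  rw [hc]
  intro i j
  exact hG _ fun σ hσ => h2 (σ : Ω →+ Ω) (map_one σ) (hW σ hσ) i j

end Pool.Agent.TIFP
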