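import Mathlib
import Pool.Agent.TIF.Defs
import Pool.Agent.TIFP.RatV

/-!
# [TIF] rational ideals and rational classes

`K` is a subfield of `Ω` which contains `k`; `T` is defined over `k`.
-/

set_option autoImplicit false
set_option linter.unusedSectionVars false

open Polynomial GT TIF

namespace Pool.Agent.TIFP

section

variable {k Ω : Type} [Field k] [Field Ω] [Algebra k Ω] {d : ℕ} [NeZero d] {T : Tab Ω d}

/-- the basis of the monomials `X^n f_j` -/
noncomputable def eW (T : Tab Ω d) : Module.Basis (ℕ × ZMod d) Ω (WB T) :=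
  (Polynomial.basisMonomials Ω).smulTower (WB.bas T)

theorem eW_repr (b : WB T) (n : ℕ) (j : ZMod d) : (eW T).repr b (n, j) = (b.co j).coeff n := by
  rw [eW, Module.Basis.smulTower_repr_mk, WB.bas_repr]
  rfl

theorem cf_iff (K : Set Ω) (b : WB T) : Cf K b ↔ CfV (eW T) K b := by
  constructor
  · rintro h ⟨n, j⟩
    rw [eW_repr]
    exact h j n
  · intro h j n
    rw [← eW_repr]
    exact h (n, j)

/-- the polynomial has coefficients in `K` -/
def Pk (K : Set Ω) (p : Polynomial Ω) : Prop := ∀ n, p.coeff n ∈ K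

theorem pkMul {K : Subfield Ω} {p r : Polynomial Ω} (hp : Pk (K : Set Ω) p) (hr : Pk (K : Set Ω) r) :
    Pk (K : Set Ω) (p * r) := by
  intro n
  rw [coeff_mul]
  exact K.sum_mem fun x _ => K.mul_mem (hp _) (hr _)

theorem pkSum {K : Subfield Ω} {α : Type*} (s : Finset α) (p : α → Polynomial Ω)
    (hp : ∀ i ∈ s, Pk (K : Set Ω) (p i)) : Pk (K : Set Ω) (∑ i ∈ s, p i) := by
  intro n
  rw [finsetSum_coeff]
  exact K.sum_mem fun i hi => hp i hi n

theorem pk_c (hT : Tk k T) {K : Subfield Ω} (hK : ∀ x : k, algebraMap k Ω x ∈ K) (i j l : ZMod d) :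
    Pk (K : Set Ω) (T.c i j l) := by
  obtain ⟨T₀, rfl⟩ := hT
  intro n
  rw [Tab.map_c, coeff_map]
  exact hK _

theorem cfMul (hT : Tk k T) {K : Subfield Ω} (hK : ∀ x : k, algebraMap k Ω x ∈ K) {a b : WB T}
    (ha : Cf (K : Set Ω) a) (hb : Cf (K : Set Ω) b) : Cf (K : Set Ω) (a * b) := by
  intro l
  rw [WB.co_mul]
  exact pkSum _ _ fun i _ => pkSum _ _ fun j _ => pkMul (pk_c hT hK i j l)
    (pkMul (K := K) (ha i) (hb j))

theorem cfOne {K : Subfield Ω} : Cf (K : Set Ω) (1 : WB T) := by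
  intro j n
  rw [WB.co_one]
  by_cases hj : j = 0
  · rw [hj, Pi.single_eq_same, coeff_one]
    split_ifs
    · exact K.one_mem
    · exact K.zero_mem
  · rw [Pi.single_eq_of_ne hj, coeff_zero]
    exact K.zero_mem

/-- a functional applied to a product with a rational element -/
theorem pm_mul (hT : Tk k T) {K : Subfield Ω} (hK : ∀ x : k, algebraMap k Ω x ∈ K)
    (π : Ω →ₗ[K] K) (a b : WB T) (hb : Cf (K : Set Ω) b) :
    pm (eW T) (fn π) (a * b) = pm (eW T) (fn π) a * b := by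
  have hpol : ∀ (p q r : Polynomial Ω), (∀ n, q.coeff n = fn π (p.coeff n)) → Pk (K : Set Ω) r → ∀ n,
      fn π ((p * r).coeff n) = (q * r).coeff n := by
    intro p q r hq hr n
    rw [coeff_mul, coeff_mul, map_sum]
    refine Finset.sum_congr rfl fun x _ => ?_
    rw [hq, mul_comm, fn_mul π _ _ (hr _), mul_comm]
  refine WB.ext (funext fun l => Polynomial.ext fun n => ?_)
  have h1 : ∀ (x : WB T) (j : ZMod d) (n : ℕ),
      ((pm (eW T) (fn π) x).co j).coeff n = fn π ((x.co j).coeff n) := by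
    intro x j n
    rw [← eW_repr, pm_repr, eW_repr]
  rw [h1, WB.co_mul, WB.co_mul, finsetSum_coeff, finsetSum_coeff, map_sum]
  refine Finset.sum_congr rfl fun i _ => ?_
  rw [finsetSum_coeff, finsetSum_coeff, map_sum]
  refine Finset.sum_congr rfl fun j _ => ?_
  have e1 : ∀ x y z : Polynomial Ω, x * (y * z) = y * (x * z) := fun x y z => by ring
  rw [e1 (T.c i j l) (a.co i), e1 (T.c i j l) ((pm (eW T) (fn π) a).co i)]
  exact hpol _ _ _ (fun n => h1 a i n) (pkMul (pk_c hT hK i j l) (hb j)) n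

theorem ratI_iff_ratV (hT : Tk k T) {K : Subfield Ω} (hK : ∀ x : k, algebraMap k Ω x ∈ K)
    (I : Ideal (WB T)) : RatI (K : Set Ω) I ↔ RatV (eW T) (K : Set Ω) (I.restrictScalars Ω) := by
  constructor
  · intro h
    rw [ratV_iff_pm]
    intro π x hx
    have hx' : x ∈ I := hx
    rw [h] at hx'
    refine Submodule.span_induction (p := fun x _ => ∀ a : WB T, pm (eW T) (fn π) (a * x) ∈ I)
      ?_ ?_ ?_ ?_ hx' 1 |> fun h => by simpa using h
    · intro y hy a
      rw [pm_mul hT hK π a y hy.2]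
      exact I.mul_mem_left _ hy.1
    · intro a
      simp
    · intro y z _ _ hy hz a
      rw [mul_add, map_add]
      exact I.add_mem (hy a) (hz a)
    · intro c y _ hy a
      rw [smul_eq_mul, ← mul_assoc]
      exact hy _
  · intro h
    refine le_antisymm (fun x hx => ?_) (Ideal.span_le.2 fun x hx => hx.1)
    have hx' : x ∈ I.restrictScalars Ω := hx
    rw [h] at hx'
    have hle : Submodule.span Ω {x | x ∈ I.restrictScalars Ω ∧ CfV (eW T) (K : Set Ω) x} ≤
        (Ideal.span {b | b ∈ I ∧ Cf (K : Set Ω) b}).restrictScalars Ω := by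
      rw [Submodule.span_le]
      rintro y ⟨h1, h2⟩
      exact Ideal.subset_span ⟨h1, (cf_iff _ _).2 h2⟩
    exact hle hx'

theorem ratI_iff_pm (hT : Tk k T) {K : Subfield Ω} (hK : ∀ x : k, algebraMap k Ω x ∈ K)
    (I : Ideal (WB T)) : RatI (K : Set Ω) I ↔
      ∀ π : Ω →ₗ[K] K, ∀ x ∈ I, pm (eW T) (fn π) x ∈ I := by
  rw [ratI_iff_ratV hT hK, ratV_iff_pm]
  rfl

theorem ratITop (K : Subfield Ω) : RatI (K : Set Ω) (⊤ : Ideal (WB T)) := by
  refine le_antisymm (fun x _ => ?_) (fun x _ => Submodule.mem_top)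
  have h : (1 : WB T) ∈ Ideal.span {b | b ∈ (⊤ : Ideal (WB T)) ∧ Cf (K : Set Ω) b} :=
    Ideal.subset_span ⟨Submodule.mem_top, cfOne⟩
  rw [(Ideal.eq_top_iff_one _).2 h]
  exact Submodule.mem_top

theorem ratIMul (hT : Tk k T) {K : Subfield Ω} (hK : ∀ x : k, algebraMap k Ω x ∈ K)
    {I J : Ideal (WB T)} (hI : RatI (K : Set Ω) I) (hJ : RatI (K : Set Ω) J) :
    RatI (K : Set Ω) (I * J) := by
  refine le_antisymm ?_ (Ideal.span_le.2 fun x hx => hx.1)
  conv_lhs => rw [hI, hJ]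
  rw [Ideal.span_mul_span', Ideal.span_le]
  rintro _ ⟨a, ha, b, hb, rfl⟩
  exact Ideal.subset_span ⟨Ideal.mul_mem_mul ha.1 hb.1, cfMul hT hK ha.2 hb.2⟩

theorem ratISpan (K : Set Ω) {b : WB T} (hb : Cf K b) : RatI K (Ideal.span {b}) := by
  refine le_antisymm ?_ (Ideal.span_le.2 fun x hx => hx.1)
  rw [Ideal.span_singleton_le_iff_mem]
  exact Ideal.subset_span ⟨Ideal.mem_span_singleton_self b, hb⟩

variable [IsDedekindDomain (WB T)]

/-- the complementary ideal of a rational ideal in a rational principal ideal is rational -/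
theorem ratIQuot (hT : Tk k T) {K : Subfield Ω} (hK : ∀ x : k, algebraMap k Ω x ∈ K)
    {I J : Ideal (WB T)} (hI : RatI (K : Set Ω) I) (hI0 : I ≠ ⊥) {b : WB T}
    (hb : Cf (K : Set Ω) b) (h : I * J = Ideal.span {b}) : RatI (K : Set Ω) J := by
  have hbr := (ratI_iff_pm hT hK _).1 (ratISpan (K : Set Ω) hb)
  rw [ratI_iff_pm hT hK]
  intro π x hx
  have h1 : Ideal.span {pm (eW T) (fn π) x} * I ≤ I * J := by
    conv_lhs => rw [hI]
    rw [Ideal.span_mul_span', Ideal.span_le]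
    rintro _ ⟨a, ha, z, hz, rfl⟩
    rw [Set.mem_singleton_iff] at ha
    subst ha
    change pm (eW T) (fn π) x * z ∈ I * J
    rw [← pm_mul hT hK π x z hz.2]
    rw [h]
    refine hbr π _ ?_
    rw [← h, mul_comm x z]
    exact Ideal.mul_mem_mul hz.1 hx
  rw [← Ideal.dvd_iff_le, mul_comm (Ideal.span {pm (eW T) (fn π) x}) I,
    mul_dvd_mul_iff_left hI0, Ideal.dvd_iff_le, Ideal.span_singleton_le_iff_mem] at h1
  exact h1

variable [IsAlgClosed Ω]

/-- a rational element with the least order of the pole -/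
theorem ratIMin {K : Subfield Ω} (hT : Tk k T) (hK : ∀ x : k, algebraMap k Ω x ∈ K)
    {I : Ideal (WB T)} (hI : RatI (K : Set Ω) I) (hI0 : I ≠ ⊥) :
    ∃ b ∈ I, b ≠ 0 ∧ Cf (K : Set Ω) b ∧ ∀ x ∈ I, x ≠ 0 → pord b ≤ pord x := by
  obtain ⟨b, hb, hb0, hmin⟩ := A10_exists_min I hI0
  obtain ⟨m, c, π, hsum⟩ := exists_decomp (eW T) K b
  have h1 : ∃ i, pm (eW T) (fn (π i)) b ≠ 0 := by
    by_contra hcon
    push Not at hcon
    apply hb0
    rw [hsum]
    exact Finset.sum_eq_zero fun i _ => by rw [hcon i, smul_zero]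
  obtain ⟨i, hi⟩ := h1
  have h2 : pm (eW T) (fn (π i)) b ∈ I := (ratI_iff_pm hT hK I).1 hI (π i) b hb
  refine ⟨_, h2, hi, (cf_iff _ _).2 (pm_cf _ _ _), fun x hx hx0 => le_trans ?_ (hmin x hx hx0)⟩
  rw [← mem_Ble_iff]
  intro j n hn
  rw [← eW_repr, pm_repr, eW_repr, (mem_Ble_pord b) j n hn, map_zero]

/-- The reduced ideal of the class `D` is rational if the class `D⁻¹` contains a rational ideal. -/
theorem ratIRdc (hT : Tk k T) {K : Subfield Ω} (hK : ∀ x : k, algebraMap k Ω x ∈ K)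
    {I : Ideal (WB T)} (hI : RatI (K : Set Ω) I) (hI0 : I ≠ ⊥) {D : ClassGroup (WB T)}
    (hD : cls I = D⁻¹) : RatI (K : Set Ω) (rdc D) := by
  obtain ⟨b, hb, hb0, hbK, hmin⟩ := ratIMin hT hK hI hI0
  obtain ⟨J, hJ⟩ := Ideal.dvd_iff_le.2 ((Ideal.span_singleton_le_iff_mem I).2 hb)
  have hJ0 : J ≠ ⊥ := by
    rintro rfl
    rw [Ideal.mul_bot, Ideal.span_singleton_eq_bot] at hJ
    exact hb0 hJ
  have hclsJ : cls J = D := by
    have h1 : cls (I * J) = 1 := by rw [← hJ, cls_span hb0]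
    rw [cls_mul hI0 hJ0, hD] at h1
    exact (inv_mul_eq_one.1 h1).symm
  have hlen : len J ≤ len (GT.rdc D) := by
    -- `I * rdc D` is principal, its generator is in `I`
    have h2 : cls (I * GT.rdc D) = 1 := by
      rw [cls_mul hI0 (rdc_ne D), hD, cls_rdc, inv_mul_cancel]
    obtain ⟨c, hc⟩ := (cls_eq_one_iff (mul_ne_zero hI0 (rdc_ne D))).1 h2
    have hc0 : c ≠ 0 := by
      rintro rfl
      rw [Ideal.span_singleton_eq_bot.2 rfl] at hc
      exact mul_ne_zero hI0 (rdc_ne D) hc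
    have hcI : c ∈ I := by
      have h5 : Ideal.span {c} ≤ I := hc ▸ (Ideal.mul_le_left : I * GT.rdc D ≤ I)
      exact h5 (Ideal.mem_span_singleton_self c)
    have h3 := hmin c hcI hc0
    rw [← len_span hb0, ← len_span hc0, hJ, ← hc, len_mul hI0 hJ0, len_mul hI0 (rdc_ne D)] at h3
    omega
  rw [← rdc_unique D J hJ0 hclsJ hlen]
  exact ratIQuot hT hK hI hI0 hbK hJ.symm

/-- A class is rational if and only if it contains a rational ideal. -/
theorem mem_JK_iff' (hT : Tk k T) {K : Subfield Ω} (hK : ∀ x : k, algebraMap k Ω x ∈ K)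
    (D : ClassGroup (WB T)) :
    D ∈ JK (T := T) (K : Set Ω) ↔ ∃ I : Ideal (WB T), I ≠ ⊥ ∧ RatI (K : Set Ω) I ∧ cls I = D := by
  constructor
  · intro h
    exact ⟨rdc D, rdc_ne D, h, cls_rdc D⟩
  · rintro ⟨I, hI0, hI, rfl⟩
    have h1 : RatI (K : Set Ω) (rdc (cls I)⁻¹) := ratIRdc hT hK hI hI0 (inv_inv _).symm
    exact ratIRdc hT hK h1 (rdc_ne _) (cls_rdc _)

theorem jkOne (hT : Tk k T) {K : Subfield Ω} (hK : ∀ x : k, algebraMap k Ω x ∈ K) :
    (1 : ClassGroup (WB T)) ∈ JK (T := T) (K : Set Ω) := by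
  rw [mem_JK_iff' hT hK]
  refine ⟨⊤, top_ne_bot (α := Ideal (WB T)), ratITop K, ?_⟩
  have h := cls_span (one_ne_zero (α := WB T))
  rwa [Ideal.span_singleton_one] at h

theorem jkMul (hT : Tk k T) {K : Subfield Ω} (hK : ∀ x : k, algebraMap k Ω x ∈ K)
    {D E : ClassGroup (WB T)} (hD : D ∈ JK (T := T) (K : Set Ω)) (hE : E ∈ JK (T := T) (K : Set Ω)) :
    D * E ∈ JK (T := T) (K : Set Ω) := by
  rw [mem_JK_iff' hT hK]
  exact ⟨rdc D * rdc E, mul_ne_zero (rdc_ne D) (rdc_ne E), ratIMul hT hK hD hE, by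
    rw [cls_mul (rdc_ne D) (rdc_ne E), cls_rdc, cls_rdc]⟩

theorem jkInv (hT : Tk k T) {K : Subfield Ω} (hK : ∀ x : k, algebraMap k Ω x ∈ K)
    {D : ClassGroup (WB T)} (hD : D ∈ JK (T := T) (K : Set Ω)) : D⁻¹ ∈ JK (T := T) (K : Set Ω) := by
  change RatI (K : Set Ω) (rdc D⁻¹)
  exact ratIRdc hT hK hD (rdc_ne D) (by rw [cls_rdc, inv_inv])

end

end Pool.Agent.TIFP
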