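import Mathlib
import Pool.Agent.TIF.EndADefs
import Pool.Agent.TIFP.Conj
import Pool.Agent.TIFT.R

/-!
# [TIF] HON: the honest endomorphisms are an `ℓ`-saturated ring
-/

set_option autoImplicit false
set_option linter.unusedSectionVars false

open Polynomial

namespace Pool.Agent.TIFP

open GT TIF Pool.Agent.TIFT

section fixed

/-- An element fixed by all automorphisms over `K` is purely inseparable over `K`. -/
theorem pow_mem_of_fixed {k Ω : Type} [Field k] [Field Ω] [Algebra k Ω] [IsAlgClosed Ω] (p : ℕ)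
    [ExpChar k p] (K : IntermediateField k Ω) (c : Ω)
    (h : ∀ σ : Ω ≃ₐ[k] Ω, (∀ x ∈ K, σ x = x) → σ c = c) : ∃ n : ℕ, c ^ p ^ n ∈ K := by
  have hK : ∀ σ : Ω ≃ₐ[K] Ω, σ c = c := fun σ => h (σ.restrictScalars k) fun x hx =>
    σ.commutes ⟨x, hx⟩
  have hexp : ExpChar K p := expChar_of_injective_algebraMap (algebraMap k K).injective p
  have halg : IsAlgebraic K c := by
    by_contra hc
    have h1 : ∀ x : Ω, Transcendental K x →
        RingHom.ker (MvPolynomial.aeval (fun _ : Unit => x) : MvPolynomial Unit K →ₐ[K] Ω) = ⊥ := by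
      intro x hx
      rw [RingHom.ker_eq_bot_iff_eq_zero]
      have h2 : AlgebraicIndependent K (fun _ : Unit => x) :=
        algebraicIndependent_unique_type_iff.2 hx
      exact (injective_iff_map_eq_zero _).1 h2
    have h3 : Transcendental K (c + 1) := by
      intro h4
      apply hc
      have := h4.sub (isAlgebraic_one (R := K))
      rwa [add_sub_cancel_right] at this
    obtain ⟨σ, hσ⟩ := exists_conj (k := K) (fun _ : Unit => c) (fun _ : Unit => c + 1)
      ((h1 c hc).trans (h1 _ h3).symm)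
    have h5 := hσ ()
    rw [hK σ] at h5
    exact one_ne_zero (left_eq_add.1 h5)
  have hint : IsIntegral K c := halg.isIntegral
  have hroot : ∀ c' ∈ (minpoly K c).aroots Ω, c' = c := by
    intro c' hc'
    let g : IntermediateField.adjoin K {c} →ₐ[K] Ω :=
      (IntermediateField.algHomAdjoinIntegralEquiv K hint).symm ⟨c', hc'⟩
    have hfd : FiniteDimensional K (IntermediateField.adjoin K {c}) :=
      IntermediateField.adjoin.finiteDimensional hint
    obtain ⟨σ, hσ⟩ := exists_aut (IntermediateField.adjoin K {c}).val g (by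
      rw [trdeg_eq_zero]
      exact Cardinal.aleph0_pos)
    have h1 := hσ (IntermediateField.AdjoinSimple.gen K c)
    rw [IntermediateField.algHomAdjoinIntegralEquiv_symm_apply_gen] at h1
    exact h1.symm.trans (hK σ)
  have hmem : c ∈ perfectClosure K Ω := by
    classical
    rw [mem_perfectClosure_iff_natSepDegree_eq_one, natSepDegree_eq_of_isAlgClosed (E := Ω),
      Finset.card_eq_one]
    refine ⟨c, ?_⟩
    ext x
    rw [Multiset.mem_toFinset, Finset.mem_singleton]
    refine ⟨hroot x, ?_⟩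
    rintro rfl
    rw [mem_aroots]
    exact ⟨minpoly.ne_zero hint, minpoly.aeval K x⟩
  rw [mem_perfectClosure_iff_pow_mem p] at hmem
  obtain ⟨n, y, hy⟩ := hmem
  exact ⟨n, hy ▸ y.2⟩

end fixed

section dedekind

variable {B : Type*} [CommRing B] [IsDedekindDomain B]

theorem sup_pow_dedekind (I J : Ideal B) (n : ℕ) (hn : n ≠ 0) : (I ⊔ J) ^ n = I ^ n ⊔ J ^ n := by
  by_cases h0 : I ⊔ J = ⊥
  · have h1 : I = ⊥ := le_bot_iff.1 (h0 ▸ le_sup_left)
    have h2 : J = ⊥ := le_bot_iff.1 (h0 ▸ le_sup_right)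
    rw [h1, h2, sup_idem, sup_idem]
  · obtain ⟨I', hI⟩ := Ideal.dvd_iff_le.2 (le_sup_left : I ≤ I ⊔ J)
    obtain ⟨J', hJ⟩ := Ideal.dvd_iff_le.2 (le_sup_right : J ≤ I ⊔ J)
    have h1 : I' ⊔ J' = ⊤ := by
      have h2 : (I ⊔ J) * (I' ⊔ J') = (I ⊔ J) * ⊤ := by
        rw [Ideal.mul_sup, ← hI, ← hJ, Ideal.mul_top]
      exact mul_left_cancel₀ h0 h2
    have h3 := Ideal.pow_sup_pow_eq_top (m := n) (n := n) h1
    calc (I ⊔ J) ^ n = (I ⊔ J) ^ n * (I' ^ n ⊔ J' ^ n) := by rw [h3, Ideal.mul_top]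
      _ = I ^ n ⊔ J ^ n := by rw [Ideal.mul_sup, ← mul_pow, ← mul_pow, ← hI, ← hJ]

theorem span_pow_dedekind (G : Finset B) (n : ℕ) (hn : n ≠ 0) :
    (Ideal.span (G : Set B)) ^ n = Ideal.span ((fun b => b ^ n) '' (G : Set B)) := by
  classical
  induction G using Finset.induction_on with
  | empty => simp [hn]
  | insert b G _ ih =>
    rw [Finset.coe_insert, Ideal.span_insert, sup_pow_dedekind _ _ n hn, ih, Set.image_insert_eq,
      Ideal.span_insert, Ideal.span_singleton_pow]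

end dedekind

section hon

variable {k Ω : Type} [Field k] [Field Ω] [Algebra k Ω] [IsAlgClosed Ω] {d : ℕ} [NeZero d]
  {T : Tab Ω d} [IsDedekindDomain (WB T)]

/-- a power of an element with coefficients purely inseparable over `K` -/
theorem cf_pow (hT : Tk k T) (p : ℕ) [ExpChar k p] (K : IntermediateField k Ω) {b : WB T} {n : ℕ}
    (h : ∀ j i, ((b.co j).coeff i) ^ p ^ n ∈ K) : Cf (K : Set Ω) (b ^ p ^ n) := by
  have hexp : ExpChar Ω p := expChar_of_injective_algebraMap (algebraMap k Ω).injective p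
  have hexp' : ExpChar (WB T) p := expChar_of_injective_algebraMap
    (R := Ω) (algebraMap Ω (WB T)).injective p
  have hrep : b = ((eW T).repr b).sum fun i r => r • eW T i := by
    conv_lhs => rw [← (eW T).linearCombination_repr b]
    rw [Finsupp.linearCombination_apply]
  have hpow : b ^ p ^ n = ((eW T).repr b).sum fun i r => r ^ p ^ n • eW T i ^ p ^ n := by
    rw [← iterateFrobenius_def]
    conv_lhs => rw [hrep]
    rw [map_finsuppSum]
    refine Finsupp.sum_congr fun i _ => ?_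
    rw [iterateFrobenius_def, _root_.smul_pow]
  have heW : ∀ i, Cf (K.toSubfield : Set Ω) (eW T i) := by
    intro i j l
    rw [← eW_repr, (eW T).repr_self]
    by_cases h : i = (l, j)
    · rw [h, Finsupp.single_eq_same]
      exact K.one_mem
    · rw [Finsupp.single_eq_of_ne' h]
      exact K.zero_mem
  have hpw : ∀ i m, Cf (K.toSubfield : Set Ω) (eW T i ^ m) := by
    intro i m
    induction m with
    | zero => rw [pow_zero]; exact cfOne
    | succ m ih => rw [pow_succ]; exact cfMul hT (r_hK K) ih (heW i)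
  intro j i
  rw [hpow, ← eW_repr, Finsupp.sum, map_sum, Finsupp.coe_finsetSum, Finset.sum_apply]
  refine K.sum_mem fun l _ => ?_
  rw [map_smul, Finsupp.smul_apply, smul_eq_mul, eW_repr]
  refine K.mul_mem ?_ (hpw l _ j i)
  exact h _ _

/-- **A class fixed by the automorphisms over `K`** has a `p`-power which is rational over `K`. -/
theorem exists_pow_mem_JK (hT : Tk k T) (p : ℕ) [ExpChar k p] (K : IntermediateField k Ω)
    (x : ClassGroup (WB T)) (h : ∀ σ : Ω ≃ₐ[k] Ω, (∀ c ∈ K, σ c = c) → act hT σ x = x) :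
    ∃ n : ℕ, x ^ p ^ n ∈ JK (T := T) (K : Set Ω) := by
  classical
  have hp : 0 < p := expChar_pos k p
  have hfix : ∀ c ∈ kD k x, ∃ n : ℕ, c ^ p ^ n ∈ K := fun c hc =>
    pow_mem_of_fixed p K c fun σ hσ => (act_eq_iff hT σ x).1 (h σ hσ) c hc
  have hrat : RatI (kD k x : Set Ω) (rdc x) := (mem_JK_iff hT (kD k x) x).2 le_rfl
  have hfg : (Ideal.span {b | b ∈ rdc x ∧ Cf (kD k x : Set Ω) b}).FG := IsNoetherian.noetherian _
  obtain ⟨G, hG, hspan⟩ := (Submodule.fg_span_iff_fg_span_finset_subset _).1 hfg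
  have hspan' : rdc x = Ideal.span (G : Set (WB T)) := hrat.trans hspan
  -- a common exponent
  have hexp : ∀ b ∈ G, ∃ n : ℕ, ∀ m, n ≤ m → ∀ j i, ((b.co j).coeff i) ^ p ^ m ∈ K := by
    intro b hb
    have hb' := (hG hb).2
    choose f hf using fun (j : ZMod d) (i : ℕ) => hfix _ (hb' j i)
    have hmono : ∀ (c : Ω) (n m : ℕ), n ≤ m → c ^ p ^ n ∈ K → c ^ p ^ m ∈ K := by
      intro c n m hnm hc
      obtain ⟨l, rfl⟩ := Nat.exists_eq_add_of_le hnm
      rw [pow_add, pow_mul]
      exact pow_mem hc _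
    refine ⟨∑ j, ∑ i ∈ (b.co j).support, f j i, fun m hm j i => ?_⟩
    by_cases hi : i ∈ (b.co j).support
    · refine hmono _ _ _ (le_trans ?_ hm) (hf j i)
      exact (Finset.single_le_sum (f := fun i => f j i) (fun _ _ => Nat.zero_le _) hi).trans
        (Finset.single_le_sum (f := fun j => ∑ i ∈ (b.co j).support, f j i)
          (fun _ _ => Nat.zero_le _) (Finset.mem_univ j))
    · rw [notMem_support_iff.1 hi, zero_pow (pow_pos hp m).ne']
      exact K.zero_mem
  choose! f hf using hexp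
  let n := ∑ b ∈ G, f b
  have hn : ∀ b ∈ G, ∀ j i, ((b.co j).coeff i) ^ p ^ n ∈ K := fun b hb =>
    hf b hb n (Finset.single_le_sum (f := f) (fun _ _ => Nat.zero_le _) hb)
  refine ⟨n, ?_⟩
  have hpn : p ^ n ≠ 0 := (pow_pos hp n).ne'
  have h1 : rdc x ^ p ^ n = Ideal.span ((fun b => b ^ p ^ n) '' (G : Set (WB T))) := by
    rw [hspan', span_pow_dedekind G _ hpn]
  have h2 : RatI (K : Set Ω) (rdc x ^ p ^ n) := by
    refine le_antisymm ?_ (Ideal.span_le.2 fun y hy => hy.1)
    conv_lhs => rw [h1]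
    rw [Ideal.span_le]
    rintro _ ⟨b, hb, rfl⟩
    refine Ideal.subset_span ⟨?_, cf_pow hT p K (hn b hb)⟩
    rw [h1]
    exact Ideal.subset_span ⟨b, hb, rfl⟩
  have h3 : rdc x ^ p ^ n ≠ ⊥ := pow_ne_zero _ (rdc_ne x)
  have h4 := cls_mem_JK hT K h3 h2
  have h5 : ∀ m : ℕ, cls (rdc x ^ m) = x ^ m := by
    intro m
    induction m with
    | zero =>
      rw [pow_zero, pow_zero, Ideal.one_eq_top, ← Ideal.span_singleton_one]
      exact cls_span one_ne_zero
    | succ m ih => rw [pow_succ, cls_mul (pow_ne_zero _ (rdc_ne x)) (rdc_ne x), ih, cls_rdc, pow_succ]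
  rwa [h5] at h4

/-- **Output of HON.** -/
theorem honOut (hT : Tk k T) (p : ℕ) [ExpChar k p] (ℓ : ℕ) (hcop : Nat.Coprime p ℓ)
    (div : ∀ D : ClassGroup (WB T), ∃ E, E ^ ℓ = D) : HonOut k hT ℓ := by
  refine ⟨JK_one hT, fun K D E => JK_mul hT K, fun K D => JK_inv hT K, fun P _ => ?_, fun v hv => ?_⟩
  · refine cls_mem_JK hT _ (r_mP_ne P) (ratI_mP hT _ fun b hb => ?_)
    exact IntermediateField.subset_adjoin _ _ ⟨b, hb, rfl⟩
  · have hequ : ∀ (σ : Ω ≃ₐ[k] Ω) (D : ClassGroup (WB T)), v (act hT σ D) = act hT σ (v D) := by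
      intro σ D
      obtain ⟨E, rfl⟩ := div D
      have h1 := hv.equ σ E
      rw [MonoidHom.pow_apply, MonoidHom.pow_apply, map_pow] at h1
      rw [map_pow, map_pow, map_pow, map_pow, h1]
    refine ⟨hequ, fun K D hD => ?_⟩
    obtain ⟨n, hn⟩ := exists_pow_mem_JK hT p K (v D) fun σ hσ => by
      rw [← hequ, (act_eq_iff hT σ D).2 fun c hc => hσ c ((mem_JK_iff hT K D).1 hD hc)]
    have h1 : (v D) ^ ℓ ∈ JK (T := T) (K : Set Ω) := hv.all K D hD
    let H : Subgroup (ClassGroup (WB T)) :=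
      { carrier := JK (T := T) (K : Set Ω)
        mul_mem' := fun ha hb => JK_mul hT K ha hb
        one_mem' := JK_one hT K
        inv_mem' := fun ha => JK_inv hT K ha }
    have h2 : (v D) ^ ℓ ∈ H := h1
    have h3 : (v D) ^ p ^ n ∈ H := hn
    have hc : IsCoprime ((p ^ n : ℕ) : ℤ) (ℓ : ℤ) := Nat.isCoprime_iff_coprime.2 (hcop.pow_left n)
    obtain ⟨a, b, hab⟩ := hc
    have h4 : v D = ((v D) ^ p ^ n) ^ a * ((v D) ^ ℓ) ^ b := by
      rw [← zpow_natCast, ← zpow_mul, ← zpow_natCast (v D) ℓ, ← zpow_mul, ← zpow_add, mul_comm _ a,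
        mul_comm _ b, hab, zpow_one]
    have h5 : v D ∈ H := by
      rw [h4]
      exact H.mul_mem (H.zpow_mem h3 a) (H.zpow_mem h2 b)
    exact h5

end hon

end Pool.Agent.TIFP
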