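import Mathlib
import Pool.Agent.TIFS.W7
import Pool.Agent.TIFP.HonOut

/-!
# [TIF LINK] (e1), (e2): the class group over an algebraically closed subfield

`A → Ω` fields, `Ω` algebraically closed; `bcl : ClassGroup (WB TA) → ClassGroup (WB T)` is injective;
its image is the set of the classes which are rational over `A`, and, if `A` is algebraically closed,
the set of the classes fixed by the automorphisms of `Ω / A`.
-/

set_option autoImplicit false
set_option linter.unusedSectionVars false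

open Polynomial

namespace Pool.Agent.TIFP

open GT TIF Pool.Agent.TIFT Pool.Agent.TIFS

section

variable {A Ω : Type} [Field A] [Field Ω] [Algebra A Ω] [IsAlgClosed Ω] {d : ℕ} [NeZero d]
  {TA : Tab A d} {T : Tab Ω d} (h : TA.map (algebraMap A Ω) = T)

/-- the elements with coefficients in `A` are in the image of the base change -/
theorem cf_bot_iff (b : WB T) :
    Cf ((⊥ : IntermediateField A Ω) : Set Ω) b ↔ ∃ a : WB TA, bmap (algebraMap A Ω) h a = b := by
  constructor
  · intro hb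
    have h1 : ∀ j : ZMod d, ∃ p : Polynomial A, p.map (algebraMap A Ω) = b.co j := by
      intro j
      have h2 : b.co j ∈ Polynomial.lifts (algebraMap A Ω) := by
        rw [Polynomial.lifts_iff_coeff_lifts]
        intro n
        exact IntermediateField.mem_bot.1 (hb j n)
      exact (Polynomial.mem_lifts _).1 h2
    choose p hp using h1
    exact ⟨⟨p⟩, WB.ext (funext fun j => hp j)⟩
  · rintro ⟨a, rfl⟩ j n
    rw [bmap_co, coeff_map]
    exact IntermediateField.mem_bot.2 ⟨_, rfl⟩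

/-- an ideal is the contraction of its extension -/
theorem comap_map_bmap (I : Ideal (WB TA)) :
    (I.map (bmap (algebraMap A Ω) h)).comap (bmap (algebraMap A Ω) h) = I := by
  refine le_antisymm (fun x hx => ?_) Ideal.le_comap_map
  rw [Ideal.mem_comap] at hx
  have hT : Tk A T := ⟨TA, h⟩
  set K : IntermediateField A Ω := ⊥ with hKdef
  obtain ⟨π, hπ⟩ := exists_fn K.toSubfield
  have hK : ∀ c ∈ K.toSubfield, fn π c = c := by
    intro c hc
    have := fn_mul π 1 c hc
    rwa [mul_one, hπ, mul_one] at this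
  have key : ∀ y ∈ I.map (bmap (algebraMap A Ω) h), ∀ w : WB T,
      ∃ a ∈ I, pm (eW T) (fn π) (w * y) = bmap (algebraMap A Ω) h a := by
    intro y hy
    refine Submodule.span_induction (p := fun y _ => ∀ w : WB T,
      ∃ a ∈ I, pm (eW T) (fn π) (w * y) = bmap (algebraMap A Ω) h a) ?_ ?_ ?_ ?_ hy
    · rintro _ ⟨a, ha, rfl⟩ w
      have h1 : Cf (K.toSubfield : Set Ω) (bmap (algebraMap A Ω) h a) := (cf_bot_iff h _).2 ⟨a, rfl⟩
      have h2 : Cf ((⊥ : IntermediateField A Ω) : Set Ω) (pm (eW T) (fn π) w) :=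
        (cf_iff (K.toSubfield : Set Ω) _).2 (pm_cf (K := K.toSubfield) (eW T) π w)
      obtain ⟨w', hw'⟩ := (cf_bot_iff h _).1 h2
      refine ⟨w' * a, I.mul_mem_left _ ha, ?_⟩
      rw [pm_mul hT (r_hK K) π w _ h1, ← hw', map_mul]
    · intro w
      exact ⟨0, I.zero_mem, by simp⟩
    · intro y z _ _ hy hz w
      obtain ⟨a, ha, ha'⟩ := hy w
      obtain ⟨b, hb, hb'⟩ := hz w
      exact ⟨a + b, I.add_mem ha hb, by rw [mul_add, map_add, ha', hb', map_add]⟩
    · intro c y _ hy w
      rw [smul_eq_mul, ← mul_assoc]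
      exact hy _
  obtain ⟨a, ha, ha'⟩ := key _ hx 1
  rw [one_mul] at ha'
  have h3 : pm (eW T) (fn π) (bmap (algebraMap A Ω) h x) = bmap (algebraMap A Ω) h x := by
    apply (eW T).repr.injective
    ext ⟨n, j⟩
    rw [pm_repr, eW_repr]
    exact hK _ ((cf_bot_iff h _).2 ⟨x, rfl⟩ j n)
  rw [h3] at ha'
  rw [bmap_inj _ h (algebraMap A Ω).injective ha']
  exact ha

theorem map_inj_bmap {I J : Ideal (WB TA)}
    (hIJ : I.map (bmap (algebraMap A Ω) h) = J.map (bmap (algebraMap A Ω) h)) : I = J := by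
  rw [← comap_map_bmap h I, hIJ, comap_map_bmap h J]

/-- the extended ideals are rational -/
theorem ratI_map (I : Ideal (WB TA)) :
    RatI ((⊥ : IntermediateField A Ω) : Set Ω) (I.map (bmap (algebraMap A Ω) h)) := by
  refine le_antisymm ?_ (Ideal.span_le.2 fun x hx => hx.1)
  rw [Ideal.map, Ideal.span_le]
  rintro _ ⟨a, ha, rfl⟩
  exact Ideal.subset_span ⟨Ideal.subset_span ⟨a, ha, rfl⟩, (cf_bot_iff h _).2 ⟨a, rfl⟩⟩

/-- the rational ideals are extended -/
theorem map_comap_bmap {I : Ideal (WB T)} (hI : RatI ((⊥ : IntermediateField A Ω) : Set Ω) I) :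
    (I.comap (bmap (algebraMap A Ω) h)).map (bmap (algebraMap A Ω) h) = I := by
  refine le_antisymm Ideal.map_comap_le ?_
  conv_lhs => rw [hI]
  rw [Ideal.span_le]
  rintro b ⟨hb, hb'⟩
  obtain ⟨a, rfl⟩ := (cf_bot_iff h _).1 hb'
  exact Ideal.mem_map_of_mem _ hb

variable [IsDedekindDomain (WB T)] [IsDedekindDomain (WB TA)]

/-- **(e1)** the base change of the class group is injective -/
theorem bcl_inj : Function.Injective (bcl (algebraMap A Ω) h) := by
  rw [injective_iff_map_eq_one]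
  intro D hD
  have hT : Tk A T := ⟨TA, h⟩
  obtain ⟨I, hI, rfl⟩ := SUP.exists_cls D
  have hinj := bmap_inj _ h (algebraMap A Ω).injective
  have hI' := map_ne_bot' _ hinj hI
  rw [bcl_cls _ h hI, SUP.cls_eq_one_iff hI'] at hD
  obtain ⟨b, hb⟩ := hD
  have hb0 : b ≠ 0 := by
    rintro rfl
    rw [Ideal.span_singleton_eq_bot.2 rfl] at hb
    exact hI' hb
  obtain ⟨c, hc, hc0, hcK, hmin⟩ := ratIMin (K := (⊥ : IntermediateField A Ω).toSubfield) hT
    (r_hK _) (ratI_map h I) hI'
  obtain ⟨a, rfl⟩ := (cf_bot_iff h c).1 hcK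
  have hbc : Ideal.span {bmap (algebraMap A Ω) h a} = Ideal.span {b} := by
    rw [hb, Ideal.mem_span_singleton] at hc
    obtain ⟨u, hu⟩ := hc
    have hu0 : u ≠ 0 := by
      rintro rfl
      rw [mul_zero] at hu
      exact hc0 hu
    have h1 := hmin b (by rw [hb]; exact Ideal.mem_span_singleton_self b) hb0
    rw [hu, pord_mul hb0 hu0] at h1
    obtain ⟨r, hr⟩ := eq_const_of_pord (b := u) (by omega)
    have hr0 : r ≠ 0 := by
      rintro rfl
      rw [map_zero] at hr
      exact hu0 hr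
    rw [hu, hr, Ideal.span_singleton_mul_right_unit]
    exact (isUnit_iff_ne_zero.2 hr0).map _
  have h2 : I = Ideal.span {a} := by
    apply map_inj_bmap h
    rw [Ideal.map_span, Set.image_singleton, hbc, hb]
  rw [SUP.cls_eq_one_iff hI]
  exact ⟨a, h2⟩

/-- the image of the base change: the rational classes -/
theorem mem_range_bcl (D : ClassGroup (WB T)) :
    D ∈ JK (T := T) ((⊥ : IntermediateField A Ω) : Set Ω) ↔ ∃ D₀, bcl (algebraMap A Ω) h D₀ = D := by
  have hT : Tk A T := ⟨TA, h⟩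
  have hinj := bmap_inj _ h (algebraMap A Ω).injective
  constructor
  · intro hD
    set I := (rdc D).comap (bmap (algebraMap A Ω) h) with hI
    have h1 : I.map (bmap (algebraMap A Ω) h) = rdc D := map_comap_bmap h hD
    have hI0 : I ≠ ⊥ := by
      intro h0
      rw [h0, Ideal.map_bot] at h1
      exact rdc_ne D h1.symm
    exact ⟨cls I, by rw [bcl_cls _ h hI0, h1, cls_rdc]⟩
  · rintro ⟨D₀, rfl⟩
    obtain ⟨I, hI, rfl⟩ := SUP.exists_cls D₀
    rw [bcl_cls _ h hI]
    exact cls_mem_JK hT _ (map_ne_bot' _ hinj hI) (ratI_map h I)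

/-- **(e2)** a class fixed by the automorphisms over the algebraically closed field `A` comes
from `A`. -/
theorem mem_range_bcl_of_fixed [IsAlgClosed A] (D : ClassGroup (WB T))
    (hD : ∀ σ : Ω ≃ₐ[A] Ω, act (⟨TA, h⟩ : Tk A T) σ D = D) :
    ∃ D₀, bcl (algebraMap A Ω) h D₀ = D := by
  have hT : Tk A T := ⟨TA, h⟩
  rw [← mem_range_bcl h, mem_JK_iff hT]
  intro c hc
  obtain ⟨p, hp⟩ := ExpChar.exists A
  obtain ⟨n, hn⟩ := pow_mem_of_fixed p (⊥ : IntermediateField A Ω) c fun σ _ =>
    (act_eq_iff hT σ D).1 (hD σ) c hc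
  obtain ⟨a, ha⟩ := IntermediateField.mem_bot.1 hn
  have hpos : 0 < p ^ n := pow_pos (expChar_pos A p) n
  obtain ⟨a', ha'⟩ := IsAlgClosed.exists_pow_nat_eq a hpos
  have hexp : ExpChar Ω p := expChar_of_injective_algebraMap (algebraMap A Ω).injective p
  have h1 : (algebraMap A Ω a') ^ p ^ n = c ^ p ^ n := by rw [← map_pow, ha', ha]
  rw [← iterateFrobenius_def, ← iterateFrobenius_def] at h1
  have h2 := iterateFrobenius_inj Ω p n h1
  exact IntermediateField.mem_bot.2 ⟨a', h2⟩

end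

section

variable {k A Ω : Type} [Field k] [Field A] [Field Ω] [Algebra k A] [Algebra k Ω] [Algebra A Ω]
  [IsScalarTower k A Ω] [IsAlgClosed A] [IsAlgClosed Ω] {d : ℕ} [NeZero d] {T₀ : Tab k d}
  {TA : Tab A d} {T : Tab Ω d} (h : TA.map (algebraMap A Ω) = T)
  [IsDedekindDomain (WB T)] [IsDedekindDomain (WB TA)]

/-- (e2) for the automorphisms of `Ω / k` which fix `A` -/
theorem mem_range_bcl_of_fixed' (D : ClassGroup (WB T))
    (hD : ∀ (g : Ω ≃ₐ[k] Ω) (hg : T.map ((g : Ω ≃+* Ω) : Ω →+* Ω) = T),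
      (∀ a : A, g (algebraMap A Ω a) = algebraMap A Ω a) → clm (bE (g : Ω ≃+* Ω) hg) D = D) :
    ∃ D₀, bcl (algebraMap A Ω) h D₀ = D := by
  refine mem_range_bcl_of_fixed h D fun σ => ?_
  have hT : Tk A T := ⟨TA, h⟩
  exact hD (σ.restrictScalars k) (hT.map σ) fun a => σ.commutes a

/-- (e1) compatibility with the automorphisms -/
theorem bcl_clm (g : Ω ≃+* Ω) (g' : A ≃+* A)
    (hgg : ∀ a : A, g (algebraMap A Ω a) = algebraMap A Ω (g' a))
    (hg : T.map (g : Ω →+* Ω) = T) (hg' : TA.map (g' : A →+* A) = TA) (D : ClassGroup (WB TA)) :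
    bcl (algebraMap A Ω) h (clm (bE g' hg') D) = clm (bE g hg) (bcl (algebraMap A Ω) h D) := by
  rw [clm_eq_clj, clm_eq_clj, bcl]
  have hinj : Function.Injective (((bE g hg : WB T ≃+* WB T) : WB T →+* WB T).comp
      (bmap (algebraMap A Ω) h)) :=
    (bE g hg).injective.comp (bmap_inj _ h (algebraMap A Ω).injective)
  rw [clj_clj _ _ _ _ (((bE g hg : WB T ≃+* WB T) : WB T →+* WB T).comp
      (bmap (algebraMap A Ω) h)) hinj, clj_clj _ _ _ _ (((bE g hg : WB T ≃+* WB T) : WB T →+* WB T).comp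
      (bmap (algebraMap A Ω) h)) hinj]
  · intro b
    rfl
  · intro b
    refine WB.ext (funext fun j => Polynomial.ext fun n => ?_)
    change (((bE g hg) (bmap (algebraMap A Ω) h b)).co j).coeff n =
      ((bmap (algebraMap A Ω) h (bE g' hg' b)).co j).coeff n
    rw [bE_co, bmap_co, bmap_co, bE_co, coeff_map, coeff_map, coeff_map, coeff_map]
    exact hgg _

end

end Pool.Agent.TIFP
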