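import Mathlib

/-!
# Finitely many prime ideals of bounded complexity over a finite field

`k` is a finite field. The kernels of `aeval y`, `y = (y_1, .., y_D)` a family of elements of a field
over `k` such that `N` of the `y_i` are algebraically independent and every other `y_j` satisfies an
equation of degree `≤ e` over these, are finite in number.
-/

set_option autoImplicit false

namespace Pool.Agent.TIFP

open MvPolynomial

universe u v

/-- Over a finite field there are finitely many polynomials of bounded total degree. -/
theorem finite_tdeg (k : Type*) [Field k] [Finite k] (σ : Type*) [Finite σ] (e : ℕ) :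
    {H : MvPolynomial σ k | H.totalDegree ≤ e}.Finite := by
  have h : Finite (restrictTotalDegree σ k e) := Module.finite_of_finite k
  have h2 : {H : MvPolynomial σ k | H.totalDegree ≤ e} = (restrictTotalDegree σ k e : Set _) := by
    ext H
    exact (mem_restrictTotalDegree σ e H).symm
  rw [h2]
  exact Set.toFinite _

/-- the equations which bound a family -/
structure Bd {k : Type u} [Field k] {D : ℕ} (S : Finset (Fin D))
    (H : Fin D → MvPolynomial (Option S) k) {L : Type v} [Field L] [Algebra k L]
    (y : Fin D → L) : Prop where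
  ind : AlgebraicIndependent k (fun i : S => y i)
  root : ∀ j, aeval (fun o : Option S => o.elim (y j) (fun i => y i)) (H j) = 0
  ne : ∀ j, H j ≠ 0

/-- the field of rational functions in the variables of `S`, and an algebraic closure -/
abbrev KS (k : Type u) [Field k] {D : ℕ} (S : Finset (Fin D)) : Type u :=
  FractionRing (MvPolynomial S k)

/-- the finitely many points over the algebraic closure of the field of rational functions -/
theorem finite_pts {k : Type u} [Field k] {D : ℕ} (S : Finset (Fin D))
    (H : Fin D → MvPolynomial (Option S) k) (hne : ∀ j, H j ≠ 0) {E : Type v} [Field E] [Algebra k E]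
    (x : S → E) (hx : AlgebraicIndependent k x) :
    {y : Fin D → E | ∀ j, aeval (fun o : Option S => o.elim (y j) x) (H j) = 0}.Finite := by
  have h1 : ∀ j, {t : E | aeval (fun o : Option S => o.elim t x) (H j) = 0}.Finite := by
    intro j
    set p : Polynomial E := (optionEquivLeft k S (H j)).map (aeval x : MvPolynomial S k →ₐ[k] E).toRingHom
      with hp
    have hp0 : p ≠ 0 := by
      rw [hp, Ne, Polynomial.map_eq_zero_iff]
      · intro h
        exact hne j ((optionEquivLeft k S).injective (by rw [h, map_zero]))
      · exact hx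
    refine (Polynomial.rootSet_finite p E).subset ?_
    intro t ht
    rw [Set.mem_ofPred_eq] at ht
    rw [Polynomial.mem_rootSet]
    refine ⟨hp0, ?_⟩
    rw [← ht]
    rw [Polynomial.coe_aeval_eq_eval, hp, Polynomial.eval_map]
    have key : ((Polynomial.eval₂RingHom ((aeval x : MvPolynomial S k →ₐ[k] E).toRingHom) t).comp
        (optionEquivLeft k S : MvPolynomial (Option S) k →+* _)) =
        ((aeval (fun o : Option S => o.elim t x) : MvPolynomial (Option S) k →ₐ[k] E) :
          MvPolynomial (Option S) k →+* E) := by
      refine MvPolynomial.ringHom_ext ?_ ?_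
      · intro r
        simp [optionEquivLeft_C]
      · intro o
        rcases o with _ | i
        · simp [optionEquivLeft_X_none]
        · simp [optionEquivLeft_X_some]
    exact congrArg (fun f : MvPolynomial (Option S) k →+* E => f (H j)) key
  have h2 := Set.Finite.pi h1
  refine h2.subset ?_
  intro y hy j _
  exact hy j

/-- the variables of `S` in the algebraic closure of `k(X_S)` -/
noncomputable def xS (k : Type u) [Field k] {D : ℕ} (S : Finset (Fin D)) (i : S) :
    AlgebraicClosure (KS k S) :=
  algebraMap (KS k S) (AlgebraicClosure (KS k S)) (algebraMap (MvPolynomial S k) (KS k S) (X i))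

theorem xS_ind (k : Type u) [Field k] {D : ℕ} (S : Finset (Fin D)) :
    AlgebraicIndependent k (xS k S) := by
  have h : (aeval (xS k S) : MvPolynomial S k →ₐ[k] AlgebraicClosure (KS k S)) =
      ((Algebra.ofId (KS k S) (AlgebraicClosure (KS k S))).restrictScalars k).comp
        (IsScalarTower.toAlgHom k (MvPolynomial S k) (KS k S)) := by
    refine MvPolynomial.algHom_ext fun i => ?_
    rw [aeval_X]
    rfl
  change Function.Injective (aeval (xS k S))
  rw [h]
  exact (algebraMap (KS k S) (AlgebraicClosure (KS k S))).injective.comp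
    (IsFractionRing.injective (MvPolynomial S k) (KS k S))

/-- A bounded family has the same relations as a family in an algebraic closure of `k(X_S)`. -/
theorem Bd.exists_pt {k : Type u} [Field k] {D : ℕ} {S : Finset (Fin D)}
    {H : Fin D → MvPolynomial (Option S) k} {L : Type v} [Field L] [Algebra k L]
    {y : Fin D → L} (h : Bd S H y) :
    ∃ z : Fin D → AlgebraicClosure (KS k S),
      (∀ j, aeval (fun o : Option S => o.elim (z j) (xS k S)) (H j) = 0) ∧
      RingHom.ker (aeval z : MvPolynomial (Fin D) k →ₐ[k] _) =
        RingHom.ker (aeval y : MvPolynomial (Fin D) k →ₐ[k] _) := by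
  set f : MvPolynomial S k →ₐ[k] L := aeval (fun i : S => y i) with hf
  have hinj : Function.Injective f := h.ind
  let g : KS k S →+* L := IsFractionRing.lift (A := MvPolynomial S k) (K := KS k S)
    (g := (f : MvPolynomial S k →+* L)) hinj
  have hg : ∀ p : MvPolynomial S k, g (algebraMap _ (KS k S) p) = f p :=
    fun p => IsFractionRing.lift_algebraMap _ p
  let _ : Algebra (KS k S) L := g.toAlgebra
  have hgA : ∀ a : KS k S, algebraMap (KS k S) L a = g a := fun _ => rfl
  have : IsScalarTower k (KS k S) L := by
    refine IsScalarTower.of_algebraMap_eq fun r => ?_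
    rw [hgA, IsScalarTower.algebraMap_apply k (MvPolynomial S k) (KS k S), hg]
    exact (f.commutes r).symm
  -- the elements `y j` are algebraic
  have halg : ∀ j, IsAlgebraic (KS k S) (y j) := by
    intro j
    refine ⟨(optionEquivLeft k S (H j)).map (algebraMap (MvPolynomial S k) (KS k S)), ?_, ?_⟩
    · rw [Ne, Polynomial.map_eq_zero_iff (IsFractionRing.injective (MvPolynomial S k) (KS k S))]
      intro h0
      exact h.ne j ((optionEquivLeft k S).injective (by rw [h0, map_zero]))
    · rw [Polynomial.aeval_def, Polynomial.eval₂_map]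
      rw [← h.root j]
      have key : ((Polynomial.eval₂RingHom ((algebraMap (KS k S) L).comp
          (algebraMap (MvPolynomial S k) (KS k S))) (y j)).comp
          (optionEquivLeft k S : MvPolynomial (Option S) k →+* _)) =
          ((aeval (fun o : Option S => o.elim (y j) (fun i => y i)) :
            MvPolynomial (Option S) k →ₐ[k] L) : MvPolynomial (Option S) k →+* L) := by
        refine MvPolynomial.ringHom_ext ?_ ?_
        · intro r
          simp only [RingHom.comp_apply, RingHom.coe_coe, optionEquivLeft_C,
            Polynomial.coe_eval₂RingHom, Polynomial.eval₂_C, aeval_C]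
          rw [hgA, hg]
          exact f.commutes r
        · intro o
          rcases o with _ | i
          · simp [optionEquivLeft_X_none]
          · simp only [RingHom.comp_apply, RingHom.coe_coe, optionEquivLeft_X_some,
              Polynomial.coe_eval₂RingHom, Polynomial.eval₂_C, aeval_X, Option.elim_some]
            rw [hgA, hg, hf, aeval_X]
      exact congrArg (fun F : MvPolynomial (Option S) k →+* L => F (H j)) key
  let M : IntermediateField (KS k S) L := IntermediateField.adjoin (KS k S) (Set.range y)
  have : Algebra.IsAlgebraic (KS k S) M :=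
    IntermediateField.isAlgebraic_adjoin fun x hx => by
      obtain ⟨j, rfl⟩ := hx
      exact (halg j).isIntegral
  let ψ : M →ₐ[KS k S] AlgebraicClosure (KS k S) := IsAlgClosed.lift
  have hmem : ∀ j, y j ∈ M := fun j => IntermediateField.subset_adjoin _ _ ⟨j, rfl⟩
  let z : Fin D → AlgebraicClosure (KS k S) := fun j => ψ ⟨y j, hmem j⟩
  have hz : ∀ {σ : Type} (w : σ → M) (F : MvPolynomial σ k),
      aeval (fun i => ψ (w i)) F = 0 ↔ aeval (fun i => (w i : L)) F = 0 := by
    intro σ w F
    have e1 : aeval (fun i => ψ (w i)) F = ψ (aeval w F) := by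
      have := MvPolynomial.comp_aeval (R := k) w (ψ.restrictScalars k)
      exact (congrArg (fun q : MvPolynomial σ k →ₐ[k] _ => q F) this).symm
    have e2 : aeval (fun i => (w i : L)) F = ((aeval w F : M) : L) := by
      have := MvPolynomial.comp_aeval (R := k) w (M.val.restrictScalars k)
      exact (congrArg (fun q : MvPolynomial σ k →ₐ[k] _ => q F) this).symm
    rw [e1, e2, map_eq_zero_iff ψ ψ.injective]
    exact (ZeroMemClass.coe_eq_zero).symm
  refine ⟨z, ?_, ?_⟩
  · intro j
    have h1 : ∀ i : S, xS k S i = ψ ⟨y i, hmem i⟩ := by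
      intro i
      have h2 : (⟨y i, hmem i⟩ : M) = algebraMap (KS k S) M (algebraMap (MvPolynomial S k) (KS k S) (X i)) := by
        apply Subtype.ext
        change y i = algebraMap (KS k S) L (algebraMap (MvPolynomial S k) (KS k S) (X i))
        rw [hgA, hg, hf, aeval_X]
      rw [h2, ψ.commutes]
      rfl
    have h3 : (fun o : Option S => o.elim (z j) (xS k S)) =
        fun o : Option S => ψ (o.elim ⟨y j, hmem j⟩ (fun i => ⟨y i, hmem i⟩)) := by
      funext o
      rcases o with _ | i
      · rfl
      · exact h1 i
    rw [h3, hz]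
    have h4 : (fun o : Option S => ((o.elim ⟨y j, hmem j⟩ (fun i => ⟨y i, hmem i⟩) : M) : L)) =
        fun o : Option S => o.elim (y j) (fun i => y i) := by
      funext o
      rcases o with _ | i <;> rfl
    rw [h4]
    exact h.root j
  · ext F
    rw [RingHom.mem_ker, RingHom.mem_ker]
    exact hz (fun j => ⟨y j, hmem j⟩) F

/-- Finitely many kernels of bounded families. -/
theorem finite_ker {k : Type u} [Field k] [Finite k] (D e : ℕ) :
    {I : Ideal (MvPolynomial (Fin D) k) | ∃ (S : Finset (Fin D))
      (H : Fin D → MvPolynomial (Option S) k) (L : Type v) (_ : Field L) (_ : Algebra k L)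
      (y : Fin D → L), Bd S H y ∧ (∀ j, (H j).totalDegree ≤ e) ∧
        I = RingHom.ker (aeval y : MvPolynomial (Fin D) k →ₐ[k] L)}.Finite := by
  have h1 : ∀ (S : Finset (Fin D)) (H : Fin D → MvPolynomial (Option S) k), (∀ j, H j ≠ 0) →
      {I : Ideal (MvPolynomial (Fin D) k) | ∃ z : Fin D → AlgebraicClosure (KS k S),
      (∀ j, aeval (fun o : Option S => o.elim (z j) (xS k S)) (H j) = 0) ∧
        I = RingHom.ker (aeval z : MvPolynomial (Fin D) k →ₐ[k] _)}.Finite := by
    intro S H hne
    refine ((finite_pts S H hne _ (xS_ind k S)).image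
      (fun z => RingHom.ker (aeval z : MvPolynomial (Fin D) k →ₐ[k] _))).subset ?_
    rintro I ⟨z, hz, rfl⟩
    exact ⟨z, hz, rfl⟩
  have h2 : ∀ S : Finset (Fin D), {H : Fin D → MvPolynomial (Option S) k |
      ∀ j, (H j).totalDegree ≤ e}.Finite := by
    intro S
    refine (Set.Finite.pi fun _ : Fin D => finite_tdeg k (Option S) e).subset ?_
    intro H hH j _
    exact hH j
  have h3 : (⋃ S : Finset (Fin D), ⋃ H ∈ {H : Fin D → MvPolynomial (Option S) k |
      ∀ j, (H j).totalDegree ≤ e}, {I : Ideal (MvPolynomial (Fin D) k) | (∀ j, H j ≠ 0) ∧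
      ∃ z : Fin D → AlgebraicClosure (KS k S),
      (∀ j, aeval (fun o : Option S => o.elim (z j) (xS k S)) (H j) = 0) ∧
        I = RingHom.ker (aeval z : MvPolynomial (Fin D) k →ₐ[k] _)}).Finite := by
    refine Set.finite_iUnion fun S => (h2 S).biUnion fun H _ => ?_
    by_cases hne : ∀ j, H j ≠ 0
    · exact (h1 S H hne).subset fun I hI => hI.2
    · convert Set.finite_empty
      ext I
      simp [hne]
  refine h3.subset ?_
  rintro I ⟨S, H, L, _, _, y, hy, hdeg, rfl⟩
  obtain ⟨z, hz, hker⟩ := hy.exists_pt
  exact Set.mem_iUnion.2 ⟨S, Set.mem_biUnion (x := H) hdeg ⟨hy.ne, z, hz, hker.symm⟩⟩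

end Pool.Agent.TIFP
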