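import Mathlib
import Pool.Agent.TIFP.Fin

/-!
# The finiteness lemma in terms of the transcendence degree and of a dimension
-/

set_option autoImplicit false

namespace Pool.Agent.TIFP

open MvPolynomial

universe u v

/-- the exponents of degree `≤ e` -/
theorem card_degree_le (σ : Type*) [Fintype σ] (e : ℕ) :
    Nat.card {n : σ →₀ ℕ | (n.sum fun _ x => x) ≤ e} = (Fintype.card σ + e).choose e := by
  classical
  have h : {n : σ →₀ ℕ | (n.sum fun _ x => x) ≤ e} =
      (((Finset.range (e + 1)).biUnion fun j => (Finset.univ : Finset σ).finsuppAntidiag j :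
        Finset (σ →₀ ℕ)) : Set (σ →₀ ℕ)) := by
    ext n
    simp only [Set.mem_ofPred_eq, Finset.coe_biUnion, Finset.mem_range, Set.mem_iUnion,
      Finset.mem_coe, Finset.mem_finsuppAntidiag', Finset.subset_univ, and_true, exists_prop]
    constructor
    · intro h
      exact ⟨_, Nat.lt_succ_of_le h, rfl⟩
    · rintro ⟨j, hj, h⟩
      omega
  rw [h, Nat.card_eq_card_toFinset]
  simp only [Finset.toFinset_coe]
  rw [Finset.card_biUnion]
  · simp only [Finset.card_finsuppAntidiag_nat_eq_choose, Finset.card_univ]
    induction e with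
    | zero => simp
    | succ e ih =>
      rw [Finset.sum_range_succ, ih ?_]
      · rw [show Fintype.card σ + (e + 1) - 1 = Fintype.card σ + e by omega,
          show Fintype.card σ + (e + 1) = (Fintype.card σ + e) + 1 by omega, Nat.choose_succ_succ']
      · ext n
        simp only [Set.mem_ofPred_eq, Finset.coe_biUnion, Finset.mem_range, Set.mem_iUnion,
          Finset.mem_coe, Finset.mem_finsuppAntidiag', Finset.subset_univ, and_true, exists_prop]
        constructor
        · intro h
          exact ⟨_, Nat.lt_succ_of_le h, rfl⟩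
        · rintro ⟨j, hj, h⟩
          omega
  · intro i _ j _ hij
    refine Finset.disjoint_left.2 fun n hn hn' => hij ?_
    rw [Finset.mem_finsuppAntidiag'] at hn hn'
    exact hn.1.symm.trans hn'.1

/-- the dimension of the space of the polynomials of degree `≤ e` -/
theorem finrank_tdeg (k : Type*) [Field k] (σ : Type*) [Fintype σ] (e : ℕ) :
    Module.finrank k (restrictTotalDegree σ k e) = (Fintype.card σ + e).choose e := by
  rw [← card_degree_le σ e]
  exact Module.finrank_eq_nat_card_basis (basisRestrictSupport k {n : σ →₀ ℕ | (n.sum fun _ x => x) ≤ e})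

/-- the dimension of the space of the polynomials of degree `≤ e` in the elements `y` -/
noncomputable def hilb (k : Type*) [Field k] {D : ℕ} {L : Type*} [Field L] [Algebra k L]
    (y : Fin D → L) (e : ℕ) : ℕ :=
  Module.finrank k ((restrictTotalDegree (Fin D) k e).map
    (aeval y : MvPolynomial (Fin D) k →ₐ[k] L).toLinearMap)

/-- If the space of polynomials of degree `≤ e` in `y` has dimension less than the number of
monomials of degree `≤ e` in `N + 1` variables, `N + 1` of the `y` satisfy an equation of degree
`≤ e`. -/
theorem exists_rel {k : Type*} [Field k] {D : ℕ} {L : Type*} [Field L] [Algebra k L]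
    (y : Fin D → L) (e : ℕ) {σ : Type*} [Fintype σ] (i : σ → Fin D)
    (h : hilb k y e < (Fintype.card σ + e).choose e) :
    ∃ H : MvPolynomial σ k, H ≠ 0 ∧ H.totalDegree ≤ e ∧ aeval (fun s => y (i s)) H = 0 := by
  classical
  set V := (restrictTotalDegree (Fin D) k e).map
    (aeval y : MvPolynomial (Fin D) k →ₐ[k] L).toLinearMap with hV
  have hmem : ∀ H : restrictTotalDegree σ k e, aeval (fun s => y (i s)) (H : MvPolynomial σ k) ∈ V := by
    intro H
    refine ⟨rename i (H : MvPolynomial σ k), ?_, ?_⟩
    · have := H.2
      rw [mem_restrictTotalDegree] at this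
      change rename i (H : MvPolynomial σ k) ∈ restrictTotalDegree (Fin D) k e
      rw [mem_restrictTotalDegree]
      exact (totalDegree_rename_le _ _).trans this
    · change aeval y (rename i (H : MvPolynomial σ k)) = _
      rw [aeval_rename]
      rfl
  let f : restrictTotalDegree σ k e →ₗ[k] V :=
    ((aeval (fun s => y (i s)) : MvPolynomial σ k →ₐ[k] L).toLinearMap.comp
      (Submodule.subtype _)).codRestrict V hmem
  have hfin : Module.Finite k V := inferInstance
  have hlt : Module.finrank k V < Module.finrank k (restrictTotalDegree σ k e) := by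
    rw [finrank_tdeg]
    exact h
  obtain ⟨H, hH, hne⟩ := Submodule.exists_mem_ne_zero_of_ne_bot
    (LinearMap.ker_ne_bot_of_finrank_lt (f := f) hlt)
  refine ⟨H, fun h0 => hne (Subtype.ext h0), (mem_restrictTotalDegree σ e _).1 H.2, ?_⟩
  exact congrArg Subtype.val (LinearMap.mem_ker.1 hH)

/-- `N` of the elements `y` are algebraically independent if the transcendence degree of the
field is at least `N`. -/
theorem exists_indep {k : Type*} [Field k] {D : ℕ} {L : Type*} [Field L] [Algebra k L]
    (y : Fin D → L) (N : ℕ)
    (h : (N : Cardinal) ≤ Algebra.trdeg k (IntermediateField.adjoin k (Set.range y))) :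
    ∃ S : Finset (Fin D), S.card = N ∧ AlgebraicIndependent k (fun i : S => y i) := by
  classical
  set M := IntermediateField.adjoin k (Set.range y) with hM
  let y' : Fin D → M := fun j => ⟨y j, IntermediateField.subset_adjoin _ _ ⟨j, rfl⟩⟩
  have hyy : ∀ j, ((y' j : M) : L) = y j := fun _ => rfl
  have hlift : ∀ a ∈ Algebra.adjoin k (Set.range y),
      ∃ a' : Algebra.adjoin k (Set.range y'), ((a' : M) : L) = a := by
    intro a ha
    have h1 : (Algebra.adjoin k (Set.range y')).map M.val = Algebra.adjoin k (Set.range y) := by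
      rw [AlgHom.map_adjoin, ← Set.range_comp]
      rfl
    rw [← h1] at ha
    obtain ⟨a', ha', rfl⟩ := ha
    exact ⟨⟨a', ha'⟩, rfl⟩
  have halg : Algebra.IsAlgebraic (Algebra.adjoin k (Set.range y')) M := by
    refine ⟨fun x => ?_⟩
    obtain ⟨a, ha, b, hb, hx⟩ := (IntermediateField.mem_adjoin_iff_div).1 x.2
    obtain ⟨a', rfl⟩ := hlift a ha
    obtain ⟨b', rfl⟩ := hlift b hb
    have hx' : x = algebraMap _ M a' / algebraMap _ M b' := Subtype.ext hx
    rw [hx', div_eq_mul_inv]
    exact (isAlgebraic_algebraMap a').mul (isAlgebraic_algebraMap b').inv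
  obtain ⟨t, ht, hb⟩ := exists_isTranscendenceBasis_subset (R := k) (A := M) (Set.range y')
  have htf : t.Finite := (Set.finite_range y').subset ht
  have hcard : (N : Cardinal) ≤ Cardinal.mk t := by
    rw [hb.cardinalMk_eq_trdeg]
    exact h
  obtain ⟨T, rfl⟩ : ∃ T : Finset M, (T : Set M) = t := ⟨htf.toFinset, by simp⟩
  have hcard' : N ≤ T.card := by
    have : Cardinal.mk (T : Set M) = T.card := by simp
    rw [this] at hcard
    exact_mod_cast hcard
  obtain ⟨T', hT', hN⟩ := Finset.exists_subset_card_eq hcard'
  have hsec : ∀ m : T', ∃ j, y' j = m := fun m => ht (hT' m.2)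
  choose g hg using hsec
  have hginj : Function.Injective g := by
    intro m m' hmm
    apply Subtype.ext
    rw [← hg m, ← hg m', hmm]
  refine ⟨Finset.univ.map ⟨g, hginj⟩, by simp [hN], ?_⟩
  have hind : AlgebraicIndependent k (fun m : T' => ((m : M) : L)) := by
    have h1 : AlgebraicIndependent k (fun m : T' => (m : M)) :=
      hb.1.comp (fun m : T' => (⟨m, hT' m.2⟩ : (T : Set M))) (fun m m' hmm => by
        apply Subtype.ext
        exact congrArg (fun z : (T : Set M) => (z : M)) hmm)
    exact h1.map' (f := M.val) M.val.injective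
  have hidx : ∀ i : (Finset.univ.map ⟨g, hginj⟩ : Finset (Fin D)), ∃ m : T', g m = i := by
    intro i
    obtain ⟨m, _, hm⟩ := Finset.mem_map.1 i.2
    exact ⟨m, hm⟩
  choose q hq using hidx
  have hqinj : Function.Injective q := by
    intro i i' hii
    apply Subtype.ext
    rw [← hq i, ← hq i', hii]
  have := hind.comp q hqinj
  convert this using 1
  funext i
  change y i = ((q i : M) : L)
  rw [← hg (q i), hyy, hq i]

/-- **Finiteness lemma.** `k` finite; there are finitely many kernels of the families `y` with
`trdeg k(y) ≥ N` such that the polynomials of degree `≤ e` in `y` form a space of dimension less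
than the number of the monomials of degree `≤ e` in `N + 1` variables. -/
theorem finite_ker_hilb (k : Type u) [Field k] [Finite k] (D e N : ℕ) :
    {I : Ideal (MvPolynomial (Fin D) k) | ∃ (L : Type v) (_ : Field L) (_ : Algebra k L)
      (y : Fin D → L),
      (N : Cardinal) ≤ Algebra.trdeg k (IntermediateField.adjoin k (Set.range y)) ∧
      hilb k y e < (N + 1 + e).choose e ∧
        I = RingHom.ker (aeval y : MvPolynomial (Fin D) k →ₐ[k] L)}.Finite := by
  refine (finite_ker D e).subset ?_
  rintro I ⟨L, _, _, y, hN, hh, rfl⟩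
  obtain ⟨S, hS, hind⟩ := exists_indep y N hN
  have : ∀ j, ∃ H : MvPolynomial (Option S) k, H ≠ 0 ∧ H.totalDegree ≤ e ∧
      aeval (fun o : Option S => y (o.elim j (fun i => i))) H = 0 := by
    intro j
    apply exists_rel
    rw [Fintype.card_option, Fintype.card_coe, hS]
    exact hh
  choose H hne hdeg hH using this
  refine ⟨S, H, L, _, _, y, ⟨hind, ?_, hne⟩, hdeg, rfl⟩
  intro j
  rw [← hH j]
  congr 2
  funext o
  rcases o with _ | i <;> rfl

end Pool.Agent.TIFP
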