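import Mathlib
import Pool.Agent.TIFP.HonOut
import Pool.Agent.TIFT.G7
import Pool.Agent.TIFT.G4

/-!
# [TIF PIG] honest on the generic points implies honest
-/

set_option autoImplicit false
set_option linter.unusedSectionVars false

open Polynomial

namespace Pool.Agent.TIFP

open GT TIF Pool.Agent.TIFT

section small

variable {k Ω : Type} [Field k] [Field Ω] [Algebra k Ω]

theorem mem_acl {K : IntermediateField k Ω} {x : Ω} : x ∈ acl K ↔ IsAlgebraic K x := by
  change x ∈ algebraicClosure K Ω ↔ _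
  exact mem_algebraicClosure_iff

theorem le_acl (K : IntermediateField k Ω) : K ≤ acl K := fun x hx =>
  mem_acl.2 (isAlgebraic_algebraMap (⟨x, hx⟩ : K))

theorem acl_mono {K L : IntermediateField k Ω} (h : K ≤ L) : acl K ≤ acl L := by
  intro x hx
  rw [mem_acl] at hx ⊢
  let _ : Algebra K L := (IntermediateField.inclusion h).toRingHom.toAlgebra
  have : IsScalarTower K L Ω := IsScalarTower.of_algebraMap_eq fun _ => rfl
  exact hx.tower_top L

theorem acl_acl (K : IntermediateField k Ω) : acl (acl K) = acl K := by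
  refine le_antisymm (fun x hx => ?_) (le_acl _)
  rw [mem_acl] at hx ⊢
  let _ : Algebra K (acl K) := (IntermediateField.inclusion (le_acl K)).toRingHom.toAlgebra
  have h1 : IsScalarTower K (acl K) Ω := IsScalarTower.of_algebraMap_eq fun _ => rfl
  have h2 : Algebra.IsAlgebraic K (acl K) := by
    refine ⟨fun y => ?_⟩
    have h3 := mem_acl.1 y.2
    exact (isAlgebraic_algHom_iff (IsScalarTower.toAlgHom K (acl K) Ω)
      (algebraMap (acl K) Ω).injective).1 h3
  exact hx.restrictScalars K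

theorem small_iff {K : IntermediateField k Ω} :
    TIFT.Small K ↔ ∃ S : Finset Ω, K ≤ acl (IntermediateField.adjoin k (S : Set Ω)) := by
  constructor
  · rintro ⟨S, hS⟩
    exact ⟨S, fun x hx => mem_acl.2 (hS x hx)⟩
  · rintro ⟨S, hS⟩
    exact ⟨S, fun x hx => mem_acl.1 (hS hx)⟩

theorem small_of_le {K L : IntermediateField k Ω} (hL : TIFT.Small L) (h : K ≤ L) : TIFT.Small K := by
  obtain ⟨S, hS⟩ := small_iff.1 hL
  exact small_iff.2 ⟨S, h.trans hS⟩

theorem small_sup {K L : IntermediateField k Ω} (hK : TIFT.Small K) (hL : TIFT.Small L) : TIFT.Small (K ⊔ L) := by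
  classical
  obtain ⟨S, hS⟩ := small_iff.1 hK
  obtain ⟨S', hS'⟩ := small_iff.1 hL
  refine small_iff.2 ⟨S ∪ S', sup_le (hS.trans (acl_mono ?_)) (hS'.trans (acl_mono ?_))⟩
  · exact IntermediateField.adjoin.mono _ _ _ (by simp)
  · exact IntermediateField.adjoin.mono _ _ _ (by simp)

theorem small_bot : TIFT.Small (⊥ : IntermediateField k Ω) := small_iff.2 ⟨∅, bot_le⟩

theorem small_iSup {ρ : Type*} [Finite ρ] {K : ρ → IntermediateField k Ω} (hK : ∀ r, TIFT.Small (K r)) :
    TIFT.Small (⨆ r, K r) := by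
  classical
  choose S hS using fun r => small_iff.1 (hK r)
  have := Fintype.ofFinite ρ
  refine small_iff.2 ⟨Finset.univ.biUnion S, iSup_le fun r => (hS r).trans (acl_mono ?_)⟩
  refine IntermediateField.adjoin.mono _ _ _ ?_
  intro x hx
  rw [Finset.mem_coe] at hx ⊢
  exact Finset.mem_biUnion.2 ⟨r, Finset.mem_univ r, hx⟩

end small

section sep

variable {k Ω : Type} [Field k] [PerfectField k] [Field Ω] [Algebra k Ω] [IsAlgClosed Ω]

/-- `K k̄ / K` is separable: a purely inseparable element of `K k̄` over `K` is in `K`. -/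
theorem mem_of_pow_mem (p : ℕ) [ExpChar k p] {K : IntermediateField k Ω} {c : Ω}
    (hc : c ∈ K ⊔ kbF k Ω) {n : ℕ} (h : c ^ p ^ n ∈ K) : c ∈ K := by
  have hexp : ExpChar K p := expChar_of_injective_algebraMap (algebraMap k K).injective p
  have hsc : IsSeparable K c := by
    have hle : K ⊔ kbF k Ω ≤ (separableClosure K Ω).restrictScalars k := by
      refine sup_le (fun x hx => ?_) (fun x hx => ?_)
      · exact (separableClosure K Ω).algebraMap_mem (⟨x, hx⟩ : K)
      · have h1 : IsAlgebraic k x := mem_algebraicClosure_iff.1 hx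
        have h2 : IsSeparable k x :=
          PerfectField.separable_of_irreducible (minpoly.irreducible h1.isIntegral)
        exact mem_separableClosure_iff.2 (IsSeparable.tower_top K h2)
    exact mem_separableClosure_iff.1 (hle hc)
  have hpc : c ∈ perfectClosure K Ω := by
    rw [mem_perfectClosure_iff_pow_mem p]
    exact ⟨n, ⟨_, h⟩, rfl⟩
  rw [mem_perfectClosure_iff_natSepDegree_eq_one] at hpc
  have h3 : (minpoly K c).natSepDegree = (minpoly K c).natDegree :=
    natSepDegree_eq_natDegree_of_separable _ hsc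
  rw [h3] at hpc
  have hdeg : (minpoly K c).degree = 1 :=
    (degree_eq_iff_natDegree_eq_of_pos Nat.one_pos).2 hpc
  obtain ⟨a, ha⟩ := minpoly.mem_range_of_degree_eq_one K c hdeg
  rw [← ha]
  exact a.2

end sep

section regular

variable {k Ω : Type} [Field k] [Field Ω] [Algebra k Ω] [IsAlgClosed Ω] {d : ℕ} [NeZero d]
  {T : Tab Ω d} [IsDedekindDomain (WB T)]

/-- the elements `P a / P b` with `a`, `b` over `K` -/
noncomputable def quoF (hT : Tk k T) (K : IntermediateField k Ω) (P : Pt T) : IntermediateField k Ω where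
  carrier := {c | ∃ a b : WB T, Cf (K : Set Ω) a ∧ Cf (K : Set Ω) b ∧ P b ≠ 0 ∧ c * P b = P a}
  mul_mem' := by
    rintro c c' ⟨a, b, ha, hb, h0, h⟩ ⟨a', b', ha', hb', h0', h'⟩
    refine ⟨a * a', b * b', cfMul (K := K.toSubfield) hT (r_hK K) ha ha',
      cfMul (K := K.toSubfield) hT (r_hK K) hb hb', ?_, ?_⟩
    · rw [map_mul]; exact mul_ne_zero h0 h0'
    · rw [map_mul, map_mul, ← h, ← h']; ring
  one_mem' := ⟨1, 1, cfOne (K := K.toSubfield), cfOne (K := K.toSubfield), by
    rw [map_one]; exact one_ne_zero, by rw [map_one, mul_one]⟩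
  add_mem' := by
    rintro c c' ⟨a, b, ha, hb, h0, h⟩ ⟨a', b', ha', hb', h0', h'⟩
    refine ⟨a * b' + a' * b, b * b', ?_, cfMul (K := K.toSubfield) hT (r_hK K) hb hb', ?_, ?_⟩
    · intro j n
      rw [WB.co_add, Pi.add_apply, coeff_add]
      exact K.add_mem (cfMul (K := K.toSubfield) hT (r_hK K) ha hb' j n)
        (cfMul (K := K.toSubfield) hT (r_hK K) ha' hb j n)
    · rw [map_mul]; exact mul_ne_zero h0 h0'
    · rw [map_mul, map_add, map_mul, map_mul, ← h, ← h']; ring
  zero_mem' := ⟨0, 1, fun j n => by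
    rw [WB.co_zero, Pi.zero_apply, coeff_zero]; exact K.zero_mem, cfOne (K := K.toSubfield), by
    rw [map_one]; exact one_ne_zero, by rw [map_zero, zero_mul]⟩
  algebraMap_mem' r := ⟨algebraMap Ω (WB T) (algebraMap k Ω r), 1, fun j n => by
    rw [WB.algebraMap_co']
    split_ifs
    · rw [coeff_C]
      split_ifs
      · exact K.algebraMap_mem r
      · exact K.zero_mem
    · rw [coeff_zero]; exact K.zero_mem, cfOne (K := K.toSubfield), by
    rw [map_one]; exact one_ne_zero, by
    rw [map_one, mul_one, AlgHom.commutes, Algebra.algebraMap_self_apply]⟩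
  inv_mem' := by
    rintro c ⟨a, b, ha, hb, h0, h⟩
    by_cases hc : c = 0
    · rw [hc, inv_zero]
      exact ⟨0, 1, fun j n => by
        rw [WB.co_zero, Pi.zero_apply, coeff_zero]; exact K.zero_mem, cfOne (K := K.toSubfield), by
        rw [map_one]; exact one_ne_zero, by rw [map_zero, zero_mul]⟩
    · refine ⟨b, a, hb, ha, ?_, ?_⟩
      · rw [← h]; exact mul_ne_zero hc h0
      · rw [← h, inv_mul_cancel_left₀ hc]

theorem le_quoF (hT : Tk k T) (K : IntermediateField k Ω) (P : Pt T) :
    K ⊔ kP k P ≤ quoF hT K P := by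
  refine sup_le (fun x hx => ?_) ?_
  · refine ⟨algebraMap Ω (WB T) x, 1, fun j n => ?_, cfOne (K := K.toSubfield), ?_, ?_⟩
    · rw [WB.algebraMap_co']
      split_ifs
      · rw [coeff_C]
        split_ifs
        · exact hx
        · exact K.zero_mem
      · rw [coeff_zero]; exact K.zero_mem
    · rw [map_one]; exact one_ne_zero
    · rw [map_one, mul_one, AlgHom.commutes, Algebra.algebraMap_self_apply]
  · rw [kP, IntermediateField.adjoin_le_iff]
    rintro x ⟨b, hb, rfl⟩
    refine ⟨b, 1, fun j n => ?_, cfOne (K := K.toSubfield), ?_, ?_⟩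
    · obtain ⟨r, hr⟩ := hb j n
      rw [← hr]
      exact K.algebraMap_mem r
    · rw [map_one]; exact one_ne_zero
    · rw [map_one, mul_one]

/-- the function field of the curve is a regular extension: one point -/
theorem mem_of_alg_point (hT : Tk k T) {K : IntermediateField k Ω} {P : Pt T} (hP : GenP k K P)
    {c : Ω} (hc : c ∈ K ⊔ kP k P) (halg : IsAlgebraic K c) : c ∈ K := by
  obtain ⟨a, b, ha, hb, h0, h⟩ := le_quoF hT K P hc
  have hP' : GenP k (acl K) P := by
    rw [← ind_singleton hT, ind_acl, ind_singleton hT]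
    exact hP
  have hK : (K : Set Ω) ⊆ (acl K : Set Ω) := le_acl K
  have hcf : Cf (acl K : Set Ω) (a - c • b) := by
    intro j n
    rw [WB.co_sub, Pi.sub_apply, coeff_sub, WB.co_smul', coeff_smul, smul_eq_mul]
    exact (acl K).sub_mem (hK (ha j n)) ((acl K).mul_mem (mem_acl.2 halg) (hK (hb j n)))
  have h1 : a - c • b = 0 := by
    by_contra hne
    apply ne_zero_gen hT hP' hcf hne
    rw [map_sub, map_smul, smul_eq_mul, h, sub_self]
  have hb0 : b ≠ 0 := by
    rintro rfl
    exact h0 (map_zero P)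
  obtain ⟨j, n, hjn⟩ : ∃ j n, (b.co j).coeff n ≠ 0 := by
    by_contra hcon
    push Not at hcon
    exact hb0 (WB.ext (funext fun j => Polynomial.ext fun n => hcon j n))
  have h2 := congrArg (fun z : WB T => (z.co j).coeff n) (sub_eq_zero.1 h1)
  simp only [WB.co_smul', coeff_smul, smul_eq_mul] at h2
  have h3 : c = (a.co j).coeff n / (b.co j).coeff n := by
    rw [h2, mul_div_cancel_right₀ _ hjn]
  rw [h3]
  exact K.div_mem (ha j n) (hb j n)

theorem kL_cons_le (K : IntermediateField k Ω) (P : Pt T) (X : List (Pt T)) :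
    kL K (P :: X) ≤ kL (K ⊔ kP k P) X := by
  refine sup_le (le_sup_left.trans le_sup_left) (iSup_le fun Q => iSup_le fun hQ => ?_)
  rcases List.mem_cons.1 hQ with h | h
  · rw [h]
    exact le_sup_right.trans le_sup_left
  · have h1 : kP k Q ≤ ⨆ P ∈ X, kP k P := le_iSup₂_of_le Q h le_rfl
    exact h1.trans le_sup_right

theorem kL_single (K : IntermediateField k Ω) (P : Pt T) : kL K [P] = K ⊔ kP k P := by
  rw [kL]
  simp

/-- the function field of the curve is a regular extension: several points -/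
theorem mem_of_alg_kL (hT : Tk k T) {K : IntermediateField k Ω} {X : List (Pt T)} (hX : Ind K X)
    {c : Ω} (hc : c ∈ kL K X) (halg : IsAlgebraic K c) : c ∈ K := by
  induction X generalizing K with
  | nil =>
    rw [kL] at hc
    simpa using hc
  | cons P X ih =>
    have h1 : Ind K ([P] ++ X) := hX
    rw [ind_append hT, kL_single] at h1
    have h2 : IsAlgebraic (K ⊔ kP k P : IntermediateField k Ω) c :=
      mem_acl.1 (acl_mono le_sup_left (mem_acl.2 halg))
    exact mem_of_alg_point hT ((ind_singleton hT).1 h1.1) (ih h1.2 (kL_cons_le K P X hc) h2) halg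

/-- the field of definition of a class is small -/
theorem small_kD (hT : Tk k T) (x : ClassGroup (WB T)) : TIFT.Small (kD k x) := by
  classical
  have hrat : RatI (kD k x : Set Ω) (rdc x) := (mem_JK_iff hT (kD k x) x).2 le_rfl
  have hfg : (Ideal.span {b | b ∈ rdc x ∧ Cf (kD k x : Set Ω) b}).FG := IsNoetherian.noetherian _
  obtain ⟨G, hG, hspan⟩ := (Submodule.fg_span_iff_fg_span_finset_subset _).1 hfg
  let S : Finset Ω := G.biUnion fun b => Finset.univ.biUnion fun j : ZMod d =>
    (b.co j).support.image fun n => (b.co j).coeff n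
  set L : IntermediateField k Ω := IntermediateField.adjoin k (S : Set Ω) with hL
  have h1 : ∀ b ∈ G, Cf (L : Set Ω) b := by
    intro b hb j n
    by_cases hn : n ∈ (b.co j).support
    · refine IntermediateField.subset_adjoin k _ ?_
      rw [Finset.mem_coe]
      exact Finset.mem_biUnion.2 ⟨b, hb, Finset.mem_biUnion.2 ⟨j, Finset.mem_univ j,
        Finset.mem_image.2 ⟨n, hn, rfl⟩⟩⟩
    · rw [notMem_support_iff.1 hn]
      exact L.zero_mem
  have h2 : RatI (L : Set Ω) (rdc x) := by
    refine le_antisymm ?_ (Ideal.span_le.2 fun y hy => hy.1)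
    conv_lhs => rw [hrat.trans hspan]
    exact Ideal.span_mono fun b hb => ⟨(hG hb).1, h1 b hb⟩
  have h3 : kD k x ≤ L := (mem_JK_iff hT L x).1 h2
  exact small_iff.2 ⟨S, h3.trans (le_acl _)⟩

/-- **Criterion.** An equivariant homomorphism `v : J^ρ → J` such that `v x` is rational over `K'` for
the generic points `x` of `J^ρ` over `k̄` which are rational over `K' ⊇ k̄` maps the points
rational over `K` to points rational over `K`, for every `K`. -/
theorem honA_crit [PerfectField k] (hU : Univ k Ω) (hT : Tk k T) {ρ : Type} [Fintype ρ]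
    (v : (ρ → ClassGroup (WB T)) →* ClassGroup (WB T))
    (hequ : ∀ (σ : Ω ≃ₐ[k] Ω) (x : ρ → ClassGroup (WB T)),
      v (fun r => act hT σ (x r)) = act hT σ (v x))
    (hgen : ∀ (K' : IntermediateField k Ω), kbF k Ω ≤ K' → ∀ x : ρ → ClassGroup (WB T),
      GenA (kbF k Ω) x → (∀ r, x r ∈ JK (T := T) (K' : Set Ω)) → v x ∈ JK (T := T) (K' : Set Ω))
    (K : IntermediateField k Ω) (y : ρ → ClassGroup (WB T))
    (hy : ∀ r, y r ∈ JK (T := T) (K : Set Ω)) : v y ∈ JK (T := T) (K : Set Ω) := by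
  classical
  obtain ⟨p, hp⟩ := ExpChar.exists k
  -- replace `K` by the field of definition of `y`
  set K₁ : IntermediateField k Ω := ⨆ r, kD k (y r) with hK₁
  have hK₁K : K₁ ≤ K := iSup_le fun r => (mem_JK_iff hT K (y r)).1 (hy r)
  have hy₁ : ∀ r, y r ∈ JK (T := T) (K₁ : Set Ω) := fun r =>
    (mem_JK_iff hT K₁ (y r)).2 (le_iSup (fun r => kD k (y r)) r)
  suffices h : v y ∈ JK (T := T) (K₁ : Set Ω) from JK_mono (T := T) hK₁K h
  have hs₁ : TIFT.Small K₁ := small_iSup fun r => small_kD hT (y r)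
  set K₂ : IntermediateField k Ω := K₁ ⊔ kbF k Ω with hK₂
  have hs₂ : TIFT.Small K₂ := small_sup hs₁ (small_kb k Ω)
  -- a generic point
  obtain ⟨x, hx⟩ := exists_genA (ρ := ρ) hU T hs₂
  obtain ⟨X, hXg, hX, hXx⟩ := id hx
  have hxkb : GenA (kbF k Ω) x := genA_mono le_sup_right hx
  have hxy : GenA K₂ (x * y) := genA_mul hU hT hs₂ hx fun r =>
    JK_mono (T := T) (fun c hc => le_acl K₂ (le_sup_left (a := K₁) hc)) (hy₁ r)
  have hxykb : GenA (kbF k Ω) (x * y) := genA_mono le_sup_right hxy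
  -- the field of the points of `X`
  set l : List ρ := Finset.univ.toList with hl
  have hlmem : ∀ r, r ∈ l := fun r => Finset.mem_toList.2 (Finset.mem_univ r)
  have hInd : Ind K₂ (l.flatMap X) := (indA_iff (Finset.nodup_toList _) hlmem).1 hX
  set K₃ : IntermediateField k Ω := kL K₂ (l.flatMap X) with hK₃
  have hK₂₃ : K₂ ≤ K₃ := le_sup_left
  have hxK : ∀ r, x r ∈ JK (T := T) (K₃ : Set Ω) := by
    intro r
    rw [← hXx r]
    refine cl_mem_JK hT K₃ fun P hP b hb => ?_
    have h1 : P ∈ l.flatMap X := List.mem_flatMap.2 ⟨r, hlmem r, hP⟩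
    have h2 : kP k P ≤ K₃ := by
      have h3 : kP k P ≤ ⨆ P ∈ l.flatMap X, kP k P := le_iSup₂_of_le P h1 le_rfl
      exact h3.trans le_sup_right
    exact h2 (IntermediateField.subset_adjoin _ _ ⟨b, hb, rfl⟩)
  have hyK : ∀ r, y r ∈ JK (T := T) (K₃ : Set Ω) := fun r =>
    JK_mono (T := T) (fun c hc => hK₂₃ (le_sup_left (a := K₁) hc)) (hy₁ r)
  have hkb : kbF k Ω ≤ K₃ := le_sup_right.trans hK₂₃
  have hv1 : v x ∈ JK (T := T) (K₃ : Set Ω) := hgen K₃ hkb x hxkb hxK
  have hv2 : v (x * y) ∈ JK (T := T) (K₃ : Set Ω) := hgen K₃ hkb _ hxykb fun r => JK_mul hT K₃ (hxK r) (hyK r)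
  have hv3 : v y ∈ JK (T := T) (K₃ : Set Ω) := by
    have : v y = v (x * y) * (v x)⁻¹ := by
      rw [map_mul, mul_comm (v x), mul_inv_cancel_right]
    rw [this]
    exact JK_mul hT K₃ hv2 (JK_inv hT K₃ hv1)
  -- the coefficients
  rw [mem_JK_iff hT] at hv3 ⊢
  intro c hc
  have hfix : ∀ σ : Ω ≃ₐ[k] Ω, (∀ a ∈ K₁, σ a = a) → σ c = c := by
    intro σ hσ
    refine (act_eq_iff hT σ (v y)).1 ?_ c hc
    rw [← hequ]
    congr 1
    funext r
    exact (act_eq_iff hT σ (y r)).2 fun a ha => hσ a (le_iSup (fun r => kD k (y r)) r ha)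
  obtain ⟨n, hn⟩ := pow_mem_of_fixed p K₁ c hfix
  have halg : IsAlgebraic K₂ c := by
    have hpos : 0 < p ^ n := pow_pos (expChar_pos k p) n
    have h1 : c ^ p ^ n ∈ acl K₂ := le_acl K₂ (le_sup_left (a := K₁) hn)
    exact IsAlgebraic.of_pow hpos (mem_acl.1 h1)
  have hc₂ : c ∈ K₂ := mem_of_alg_kL hT hInd (hv3 hc) halg
  exact mem_of_pow_mem p hc₂ hn

end regular

end Pool.Agent.TIFP
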