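import Mathlib

/-!
# A `q`-semilinear injective map of a finite-dimensional space has a nonzero fixed vector
-/

set_option autoImplicit false

namespace Pool.Agent.TIFP

open Polynomial

/-- the polynomials of the proof -/
noncomputable def LR {E : Type*} [Field E] (q : ℕ) (c : ℕ → E) : ℕ → E[X]
  | 0 => C (c 0) * X ^ q
  | i + 1 => LR q c i ^ q + C (c (i + 1)) * X ^ q

theorem LR_deg {E : Type*} [Field E] {q : ℕ} (hq : 2 ≤ q) {c : ℕ → E} (h0 : c 0 ≠ 0) (i : ℕ) :
    (LR q c i).natDegree = q ^ (i + 1) := by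
  induction i with
  | zero => rw [LR, natDegree_C_mul_X_pow q _ h0, pow_one]
  | succ i ih =>
    have h1 : (LR q c i ^ q).natDegree = q ^ (i + 2) := by
      rw [natDegree_pow, ih]
      ring
    rw [LR, natDegree_add_eq_left_of_natDegree_lt, h1]
    rw [h1]
    calc (C (c (i + 1)) * X ^ q).natDegree ≤ q := natDegree_C_mul_X_pow_le _ _
      _ = q ^ 1 := (pow_one q).symm
      _ < q ^ (i + 2) := Nat.pow_lt_pow_right (by omega) (by omega)

theorem LR_dvd {E : Type*} [Field E] {q : ℕ} (hq : 2 ≤ q) (c : ℕ → E) (i : ℕ) :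
    X ^ 2 ∣ LR q c i := by
  induction i with
  | zero => exact (pow_dvd_pow _ hq).mul_left _
  | succ i ih =>
    refine dvd_add ?_ ((pow_dvd_pow _ hq).mul_left _)
    exact ih.trans (dvd_pow_self _ (by omega))

theorem LR_root {E : Type*} [Field E] [IsAlgClosed E] {q : ℕ} (hq : 2 ≤ q) {c : ℕ → E}
    (h0 : c 0 ≠ 0) (i : ℕ) : ∃ t : E, t ≠ 0 ∧ (LR q c i).eval t = t := by
  obtain ⟨g, hg⟩ := LR_dvd hq c i
  have hne : LR q c i ≠ 0 := by
    intro h
    have := LR_deg hq h0 i
    rw [h, natDegree_zero] at this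
    have : 0 < q ^ (i + 1) := by positivity
    omega
  have hg0 : g ≠ 0 := by
    rintro rfl
    rw [mul_zero] at hg
    exact hne hg
  have hdeg : (X * g - 1 : E[X]).degree ≠ 0 := by
    have h1 : (X * g : E[X]).degree = g.degree + 1 := by rw [degree_mul, degree_X, add_comm]
    have h2 : (1 : E[X]).degree < (X * g : E[X]).degree := by
      rw [h1, degree_one, degree_eq_natDegree hg0]
      exact_mod_cast Nat.succ_pos _
    rw [degree_sub_eq_left_of_degree_lt h2, h1, degree_eq_natDegree hg0]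
    exact_mod_cast Nat.succ_ne_zero g.natDegree
  obtain ⟨t, ht⟩ := IsAlgClosed.exists_root _ hdeg
  have h3 : t * g.eval t = 1 := by
    have := ht
    rw [IsRoot.def, eval_sub, eval_mul, eval_X, eval_one, sub_eq_zero] at this
    exact this
  refine ⟨t, fun h => ?_, ?_⟩
  · rw [h, zero_mul] at h3
    exact zero_ne_one h3
  · rw [hg, eval_mul, eval_pow, eval_X, pow_two, mul_assoc, h3, mul_one]

/-- **Lang's theorem**, existence of a fixed vector. -/
theorem lang_fixed {E V : Type*} [Field E] [IsAlgClosed E] [AddCommGroup V] [Module E V]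
    [FiniteDimensional E V] [Nontrivial V] {q : ℕ} (hq : 2 ≤ q) (φ : V →+ V)
    (hφ : ∀ (c : E) (v : V), φ (c • v) = c ^ q • φ v) (hinj : Function.Injective φ) :
    ∃ v : V, v ≠ 0 ∧ φ v = v := by
  classical
  obtain ⟨v, hv⟩ := exists_ne (0 : V)
  set u : ℕ → V := fun n => φ^[n] v with hu
  have hu1 : ∀ n, φ (u n) = u (n + 1) := fun n => (Function.iterate_succ_apply' φ n v).symm
  let S : ℕ →o Submodule E V := ⟨fun n => Submodule.span E (u '' Set.Iio n), fun a b hab =>
    Submodule.span_mono (Set.image_mono (Set.Iio_subset_Iio hab))⟩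
  have hex : ∃ n, u n ∈ S n := by
    obtain ⟨n, hn⟩ := monotone_stabilizes_iff_noetherian.2 (inferInstance : IsNoetherian E V) S
    refine ⟨n, ?_⟩
    rw [hn (n + 1) (Nat.le_succ n)]
    exact Submodule.subset_span ⟨n, Nat.lt_succ_self n, rfl⟩
  let n := Nat.find hex
  have hn : u n ∈ S n := Nat.find_spec hex
  have hmin : ∀ m, m < n → u m ∉ S m := fun m hm => Nat.find_min hex hm
  have hn0 : n ≠ 0 := by
    intro h
    rw [h] at hn
    change v ∈ Submodule.span E (u '' Set.Iio 0) at hn
    have : u '' Set.Iio 0 = ∅ := by simp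
    rw [this, Submodule.span_empty] at hn
    exact hv ((Submodule.mem_bot E).1 hn)
  obtain ⟨m, hm⟩ := Nat.exists_eq_succ_of_ne_zero hn0
  -- the elements of `S n`
  have hS : ∀ (n : ℕ) (x : V), x ∈ S n ↔ ∃ c : ℕ → E, x = ∑ i ∈ Finset.range n, c i • u i := by
    intro n x
    constructor
    · intro hx
      change x ∈ Submodule.span E (u '' Set.Iio n) at hx
      have e : u '' Set.Iio n = ((Finset.range n).image u : Set V) := by simp
      rw [e, Finset.coe_image] at hx
      obtain ⟨c, hc⟩ := Submodule.mem_span_image_finset_iff_exists_fun' (R := E) |>.1 hx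
      exact ⟨c, hc.symm⟩
    · rintro ⟨c, rfl⟩
      exact Submodule.sum_mem _ fun i hi => Submodule.smul_mem _ _
        (Submodule.subset_span ⟨i, Finset.mem_range.1 hi, rfl⟩)
  obtain ⟨c, hc⟩ := (hS n _).1 hn
  rw [hm] at hc
  have hum : u m ∉ S m := hmin m (by omega)
  have hc0 : c 0 ≠ 0 := by
    intro h0
    apply hum
    rw [hS]
    choose d hd using fun i => IsAlgClosed.exists_pow_nat_eq (c (i + 1)) (show 0 < q by omega)
    refine ⟨d, hinj ?_⟩
    rw [hu1, map_sum, hc, Finset.sum_range_succ']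
    rw [h0, zero_smul, add_zero]
    exact Finset.sum_congr rfl fun i _ => by rw [hφ, hd, hu1]
  obtain ⟨t, ht0, ht⟩ := LR_root hq hc0 m
  let x : ℕ → E := fun i => (LR q c i).eval t
  have hx0 : x 0 = c 0 * t ^ q := by
    change (LR q c 0).eval t = _
    rw [LR, eval_mul, eval_C, eval_pow, eval_X]
  have hx1 : ∀ i, x (i + 1) = x i ^ q + c (i + 1) * t ^ q := by
    intro i
    change (LR q c (i + 1)).eval t = _
    rw [LR, eval_add, eval_mul, eval_C, eval_pow, eval_pow, eval_X]
  refine ⟨∑ i ∈ Finset.range (m + 1), x i • u i, fun h => ?_, ?_⟩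
  · apply hum
    rw [hS]
    rw [Finset.sum_range_succ] at h
    refine ⟨fun i => - (t⁻¹ * x i), ?_⟩
    have hxm : x m = t := ht
    rw [hxm] at h
    have h2 : t • u m = - ∑ i ∈ Finset.range m, x i • u i := eq_neg_of_add_eq_zero_right h
    calc u m = t⁻¹ • (t • u m) := by rw [smul_smul, inv_mul_cancel₀ ht0, one_smul]
      _ = _ := by
        rw [h2, smul_neg, Finset.smul_sum, ← Finset.sum_neg_distrib]
        exact Finset.sum_congr rfl fun i _ => by rw [smul_smul, neg_smul]
  · rw [map_sum]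
    have h3 : ∑ i ∈ Finset.range (m + 1), φ (x i • u i) =
        ∑ i ∈ Finset.range m, x i ^ q • u (i + 1) + t ^ q • u (m + 1) := by
      rw [Finset.sum_range_succ, hφ, hu1]
      congr 1
      · exact Finset.sum_congr rfl fun i _ => by rw [hφ, hu1]
      · have hxm : x m = t := ht
        rw [hxm]
    rw [h3]
    have h4 : u (m + 1) = ∑ i ∈ Finset.range m, c (i + 1) • u (i + 1) + c 0 • u 0 := by
      rw [← Finset.sum_range_succ' (fun i => c i • u i) m]
      exact hc
    rw [h4, Finset.sum_range_succ', hx0, smul_add, smul_smul, mul_comm (t ^ q) (c 0), ← add_assoc]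
    congr 1
    rw [Finset.smul_sum, ← Finset.sum_add_distrib]
    refine Finset.sum_congr rfl fun i _ => ?_
    rw [hx1, add_smul, smul_smul, mul_comm (t ^ q)]

end Pool.Agent.TIFP
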