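import Mathlib
import Pool.Agent.TIFP.Conj

/-!
# Semilinear actions: linear disjointness and Galois descent
-/

set_option autoImplicit false

namespace Pool.Agent.TIFP

open scoped BigOperators

/-- **Linear disjointness.** `V` is a vector space over `E`, `ρ g` are `s g`-semilinear maps. Vectors
fixed by the `ρ g` which are linearly independent over `K` are linearly independent over `E` if all
the elements of `E` fixed by the `s g` are in `K`. -/
theorem linearIndependent_of_fixed {G K E V ι : Type*} [Field K] [Field E] [Algebra K E]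
    [AddCommGroup V] [Module E V] [Module K V] [IsScalarTower K E V] (s : G → E →+* E)
    (ρ : G → V →+ V) (hs : ∀ g (c : E) (v : V), ρ g (c • v) = s g c • ρ g v)
    (hfix : ∀ c : E, (∀ g, s g c = c) → ∃ a : K, algebraMap K E a = c)
    (v : ι → V) (hv : ∀ g i, ρ g (v i) = v i) (hind : LinearIndependent K v) :
    LinearIndependent E v := by
  classical
  have key : ∀ (n : ℕ) (t : Finset ι), t.card = n → ∀ c : ι → E, ∑ i ∈ t, c i • v i = 0 →
      ∀ i ∈ t, c i = 0 := by
    intro n
    induction n with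
    | zero =>
      intro t ht c _ i hi
      rw [Finset.card_eq_zero] at ht
      simp [ht] at hi
    | succ n ih =>
      intro t ht c hc i₀ hi₀
      by_contra hne
      set d : ι → E := fun i => (c i₀)⁻¹ * c i with hd
      have hd0 : d i₀ = 1 := inv_mul_cancel₀ hne
      have hsum : ∑ i ∈ t, d i • v i = 0 := by
        have : ∑ i ∈ t, d i • v i = (c i₀)⁻¹ • ∑ i ∈ t, c i • v i := by
          rw [Finset.smul_sum]
          exact Finset.sum_congr rfl fun i _ => by rw [hd, mul_smul]
        rw [this, hc, smul_zero]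
      have hg : ∀ g, ∀ i ∈ t, s g (d i) = d i := by
        intro g
        have h1 : ∑ i ∈ t, s g (d i) • v i = 0 := by
          have := congrArg (ρ g) hsum
          rw [map_sum, map_zero] at this
          rw [← this]
          exact Finset.sum_congr rfl fun i _ => by rw [hs, hv]
        have h2 : ∑ i ∈ t.erase i₀, (s g (d i) - d i) • v i = 0 := by
          have h3 : ∑ i ∈ t, (s g (d i) - d i) • v i = 0 := by
            simp only [sub_smul, Finset.sum_sub_distrib, h1, hsum, sub_zero]
          rw [← Finset.add_sum_erase t _ hi₀] at h3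
          rw [hd0, map_one, sub_self, zero_smul, zero_add] at h3
          exact h3
        have h4 := ih (t.erase i₀) (by rw [Finset.card_erase_of_mem hi₀, ht]; rfl)
          (fun i => s g (d i) - d i) h2
        intro i hi
        by_cases hii : i = i₀
        · rw [hii, hd0, map_one]
        · exact sub_eq_zero.1 (h4 i (Finset.mem_erase.2 ⟨hii, hi⟩))
      have hK : ∀ i, ∃ a : K, i ∈ t → algebraMap K E a = d i := by
        intro i
        by_cases hi : i ∈ t
        · obtain ⟨a, ha⟩ := hfix (d i) fun g => hg g i hi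
          exact ⟨a, fun _ => ha⟩
        · exact ⟨0, fun h => absurd h hi⟩
      choose a ha using hK
      have h5 : ∑ i ∈ t, a i • v i = 0 := by
        rw [← hsum]
        refine Finset.sum_congr rfl fun i hi => ?_
        rw [← ha i hi, algebraMap_smul]
      have h6 := linearIndependent_iff'.1 hind t a h5 i₀ hi₀
      have h7 := ha i₀ hi₀
      rw [h6, map_zero, hd0] at h7
      exact zero_ne_one h7
  rw [linearIndependent_iff']
  intro t c hc
  exact key t.card t rfl c hc

/-- the matrix of the conjugates of a basis of a Galois extension has a left inverse for the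
identity -/
theorem exists_dual (k K : Type*) [Field k] [Field K] [Algebra k K] [FiniteDimensional k K] :
    ∃ (n : ℕ) (b c : Fin n → K), ∑ i, b i * c i = 1 ∧
      ∀ τ : K ≃ₐ[k] K, τ ≠ 1 → ∑ i, b i * τ (c i) = 0 := by
  classical
  let B := Module.finBasis k K
  have hli : LinearIndependent K (fun (τ : K ≃ₐ[k] K) (i : Fin (Module.finrank k K)) => τ (B i)) := by
    rw [Fintype.linearIndependent_iff]
    intro g hg τ
    have h1 : ∀ x : K, ∑ σ : K ≃ₐ[k] K, g σ * σ x = 0 := by
      intro x
      have h2 : ∀ i, ∑ σ : K ≃ₐ[k] K, g σ * σ (B i) = 0 := by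
        intro i
        have := congrFun hg i
        simpa [Finset.sum_apply] using this
      rw [← B.sum_repr x]
      simp only [map_sum, Finset.mul_sum]
      rw [Finset.sum_comm]
      refine Finset.sum_eq_zero fun i _ => ?_
      have h3 : ∀ σ : K ≃ₐ[k] K, g σ * σ (B.repr x i • B i) = algebraMap k K (B.repr x i) * (g σ * σ (B i)) := by
        intro σ
        rw [map_smul, Algebra.smul_def]
        ring
      simp only [h3]
      rw [← Finset.mul_sum, h2, mul_zero]
    have h4 := linearIndependent_monoidHom K K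
    have h5 : LinearIndependent K (fun σ : K ≃ₐ[k] K => ((σ : K →* K) : K → K)) := by
      refine h4.comp (fun σ : K ≃ₐ[k] K => (σ : K →* K)) ?_
      intro σ σ' h
      ext x
      exact DFunLike.congr_fun h x
    rw [Fintype.linearIndependent_iff] at h5
    refine h5 g ?_ τ
    funext x
    simpa [Finset.sum_apply] using h1 x
  obtain ⟨f, hf⟩ : ∃ f : (Fin (Module.finrank k K) → K) →ₗ[K] K, ∀ τ : K ≃ₐ[k] K,
      f (fun i => τ (B i)) = if τ = 1 then 1 else 0 := by
    obtain ⟨f, hf⟩ := LinearMap.exists_extend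
      ((Module.Basis.span hli).constr K (fun τ : K ≃ₐ[k] K => if τ = 1 then (1 : K) else 0))
    refine ⟨f, fun τ => ?_⟩
    have h1 := LinearMap.congr_fun hf (Module.Basis.span hli τ)
    rw [Module.Basis.constr_basis, LinearMap.comp_apply, Submodule.subtype_apply,
      Module.Basis.span_apply] at h1
    exact h1
  have hsum : ∀ τ : K ≃ₐ[k] K, ∑ i, f (Pi.single i 1) * τ (B i) = if τ = 1 then 1 else 0 := by
    intro τ
    rw [← hf τ]
    conv_rhs => rw [← Finset.univ_sum_single (fun i => τ (B i))]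
    rw [map_sum]
    refine Finset.sum_congr rfl fun i _ => ?_
    have : (Pi.single i (τ (B i)) : Fin (Module.finrank k K) → K) = τ (B i) • Pi.single i 1 := by
      rw [← Pi.single_smul, smul_eq_mul, mul_one]
    rw [this, map_smul, smul_eq_mul, mul_comm]
  refine ⟨Module.finrank k K, fun i => f (Pi.single i 1), B, ?_, fun τ hτ => ?_⟩
  · simpa using hsum 1
  · rw [hsum τ, if_neg hτ]

/-- the automorphisms of a finite extension of `k` in `Ω` extend to `Ω` -/
theorem exists_lift {k Ω : Type*} [Field k] [Field Ω] [Algebra k Ω] [IsAlgClosed Ω]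
    (K : IntermediateField k Ω) [FiniteDimensional k K] (τ : K ≃ₐ[k] K) :
    ∃ σ : Ω ≃ₐ[k] Ω, ∀ x : K, σ x = (τ x : Ω) := by
  refine exists_aut K.val (K.val.comp (τ : K →ₐ[k] K)) ?_
  have : Algebra.trdeg k K = 0 := trdeg_eq_zero
  rw [this]
  exact Cardinal.aleph0_pos

/-- **Galois descent.** `ρ` is a semilinear action of the automorphisms of `Ω / k`, `v` is fixed by
the automorphisms which fix the finite Galois extension `K` of `k`. Then `v` is a combination with
coefficients in `K` of invariant vectors of every additive group `S` which contains `v`, is stable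
under the action and under the multiplication by the elements of `K`. -/
theorem descent {k Ω V : Type*} [Field k] [Field Ω] [Algebra k Ω] [IsAlgClosed Ω] [AddCommGroup V]
    [Module Ω V] (ρ : (Ω ≃ₐ[k] Ω) → V →+ V) (hmul : ∀ σ τ v, ρ (σ * τ) v = ρ σ (ρ τ v))
    (hs : ∀ σ (c : Ω) (v : V), ρ σ (c • v) = σ c • ρ σ v)
    (K : IntermediateField k Ω) [FiniteDimensional k K] [Normal k K]
    (v : V) (hv : ∀ σ : Ω ≃ₐ[k] Ω, (∀ x ∈ K, σ x = x) → ρ σ v = v)
    (S : AddSubgroup V) (hS : ∀ c ∈ K, ∀ w ∈ S, c • w ∈ S) (hρ : ∀ σ, ∀ w ∈ S, ρ σ w ∈ S)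
    (hvS : v ∈ S) :
    ∃ (n : ℕ) (b : Fin n → Ω) (w : Fin n → V), (∀ i, b i ∈ K) ∧ (∀ i, w i ∈ S) ∧
      (∀ i σ, ρ σ (w i) = w i) ∧ v = ∑ i, b i • w i := by
  classical
  choose L hL using fun τ : K ≃ₐ[k] K => exists_lift K τ
  obtain ⟨n, b, c, h1, h2⟩ := exists_dual k K
  -- two automorphisms with the same restriction to `K`
  have hsame : ∀ (σ σ' : Ω ≃ₐ[k] Ω), (∀ x ∈ K, σ x = σ' x) → ∀ a ∈ K, ρ σ (a • v) = ρ σ' (a • v) := by
    intro σ σ' h a ha
    have e : σ = σ' * (σ'⁻¹ * σ) := by group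
    have h3 : ∀ x ∈ K, (σ'⁻¹ * σ) x = x := by
      intro x hx
      rw [AlgEquiv.mul_apply, h x hx]
      exact σ'.symm_apply_apply x
    rw [e, hmul, hs (σ'⁻¹ * σ), hv _ h3, h3 a ha]
  let w : Fin n → V := fun i => ∑ τ : K ≃ₐ[k] K, ρ (L τ) ((c i : Ω) • v)
  have hρ1 : ∀ u : V, u ∈ S → ∀ σ, ρ σ u ∈ S := fun u hu σ => hρ σ u hu
  have hone : ρ (L 1) v = v := hv _ fun x hx => by
    have := hL 1 ⟨x, hx⟩
    simpa using this
  refine ⟨n, fun i => (b i : Ω), w, fun i => (b i).2, ?_, ?_, ?_⟩
  · intro i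
    exact AddSubgroup.sum_mem _ fun τ _ => hρ _ _ (hS _ (c i).2 _ hvS)
  · intro i σ
    change ρ σ (∑ τ : K ≃ₐ[k] K, ρ (L τ) ((c i : Ω) • v)) = _
    rw [map_sum]
    have h4 : ∀ τ : K ≃ₐ[k] K, ρ σ (ρ (L τ) ((c i : Ω) • v)) =
        ρ (L (σ.restrictNormal K * τ)) ((c i : Ω) • v) := by
      intro τ
      rw [← hmul]
      refine hsame _ _ ?_ _ (c i).2
      intro x hx
      rw [AlgEquiv.mul_apply, hL τ ⟨x, hx⟩, hL _ ⟨x, hx⟩, AlgEquiv.mul_apply]
      exact (AlgEquiv.restrictNormal_commutes σ K (τ ⟨x, hx⟩)).symm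
    simp only [h4]
    exact Fintype.sum_equiv (Equiv.mulLeft (σ.restrictNormal K)) _ _ fun τ => rfl
  · change v = ∑ i, (b i : Ω) • ∑ τ : K ≃ₐ[k] K, ρ (L τ) ((c i : Ω) • v)
    have h5 : ∀ i, (b i : Ω) • ∑ τ : K ≃ₐ[k] K, ρ (L τ) ((c i : Ω) • v) =
        ∑ τ : K ≃ₐ[k] K, ((b i * τ (c i) : K) : Ω) • ρ (L τ) v := by
      intro i
      rw [Finset.smul_sum]
      refine Finset.sum_congr rfl fun τ _ => ?_
      rw [hs, smul_smul, hL]
      rfl
    simp only [h5]
    rw [Finset.sum_comm]
    have h6 : ∀ τ : K ≃ₐ[k] K, ∑ i, ((b i * τ (c i) : K) : Ω) • ρ (L τ) v =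
        ((∑ i, b i * τ (c i) : K) : Ω) • ρ (L τ) v := by
      intro τ
      rw [← Finset.sum_smul]
      congr 1
      push_cast
      rfl
    simp only [h6]
    rw [Finset.sum_eq_single (1 : K ≃ₐ[k] K)]
    · have h7 : ∑ i, b i * (1 : K ≃ₐ[k] K) (c i) = 1 := by simpa using h1
      rw [h7, hone]
      simp
    · intro τ _ hτ
      rw [h2 τ hτ]
      simp
    · intro h
      exact absurd (Finset.mem_univ _) h

/-- **Descent for spaces of finite dimension** over the algebraic closure `E` of `k` in `Ω`: a basis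
of invariant vectors. -/
theorem descent_basis {k Ω V : Type*} [Field k] [Field Ω] [Algebra k Ω] [IsAlgClosed Ω]
    [AddCommGroup V] [Module Ω V] (ρ : (Ω ≃ₐ[k] Ω) → V →+ V)
    (hmul : ∀ σ τ v, ρ (σ * τ) v = ρ σ (ρ τ v))
    (hs : ∀ σ (c : Ω) (v : V), ρ σ (c • v) = σ c • ρ σ v)
    (E : IntermediateField k Ω) (S : Submodule E V) [FiniteDimensional E S]
    (hρ : ∀ σ, ∀ w ∈ S, ρ σ w ∈ S)
    (hcont : ∀ v ∈ S, ∃ K : IntermediateField k Ω, K ≤ E ∧ FiniteDimensional k K ∧ Normal k K ∧
      ∀ σ : Ω ≃ₐ[k] Ω, (∀ x ∈ K, σ x = x) → ρ σ v = v) :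
    ∃ w : Fin (Module.finrank E S) → V, LinearIndependent E w ∧
      Submodule.span E (Set.range w) = S ∧ ∀ i σ, ρ σ (w i) = w i := by
  classical
  set I : Set V := {w | w ∈ S ∧ ∀ σ, ρ σ w = w} with hI
  have hspan : Submodule.span E I = S := by
    refine le_antisymm (Submodule.span_le.2 fun w hw => hw.1) fun v hv => ?_
    obtain ⟨K, hKE, hK1, hK2, hfix⟩ := hcont v hv
    obtain ⟨n, b, w, hb, hwS, hw, hsum⟩ := descent ρ hmul hs K v hfix S.toAddSubgroup
      (fun c hc u hu => S.smul_mem (⟨c, hKE hc⟩ : E) hu) hρ hv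
    rw [hsum]
    exact Submodule.sum_mem _ fun i _ => (Submodule.span E I).smul_mem (⟨b i, hKE (hb i)⟩ : E)
      (Submodule.subset_span ⟨hwS i, hw i⟩)
  obtain ⟨B, hBI, hBs, hBi⟩ := exists_linearIndependent E I
  rw [hspan] at hBs
  have hr : Submodule.span E (Set.range ((↑) : B → V)) = S := by
    rw [Subtype.range_coe, hBs]
  let b0 := Module.Basis.span hBi
  have hfin : Module.Finite E (Submodule.span E (Set.range ((↑) : B → V))) := by
    rw [hr]
    infer_instance
  have hBf : Finite B := Module.Finite.finite_basis b0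
  have hcard : Nat.card B = Module.finrank E S := by
    rw [← Module.finrank_eq_nat_card_basis b0, hr]
  let e : Fin (Module.finrank E S) ≃ B := (Finite.equivFinOfCardEq hcard).symm
  refine ⟨fun i => (e i : V), hBi.comp e e.injective, ?_, fun i σ => (hBI (e i).2).2 σ⟩
  refine Eq.trans ?_ hr
  congr 1
  ext x
  constructor
  · rintro ⟨i, rfl⟩
    exact ⟨e i, rfl⟩
  · rintro ⟨i, rfl⟩
    exact ⟨e.symm i, by simp⟩

end Pool.Agent.TIFP
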