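import Mathlib

/-!
# The grid lemma (dimension of spaces of functions of bounded degree in each variable)
-/

set_option autoImplicit false

namespace Pool.Agent.TIFP

/-- A function which vanishes at the points of a grid vanishes at `P` if, in each variable, it
vanishes at `P i` as soon as it vanishes at the `d` grid points `Q i s` (the previous variables being
those of `P`, the next ones grid points). -/
theorem grid_vanish {X Ω : Type*} [Zero Ω] {M d : ℕ} (g : (Fin M → X) → Ω)
    (Q : Fin M → Fin d → X) (P : Fin M → X)
    (hv : ∀ (i : Fin M) (x : Fin M → X), (∀ j < i, x j = P j) → (∀ j, i < j → ∃ s, x j = Q j s) →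
      (∀ s, g (Function.update x i (Q i s)) = 0) → g (Function.update x i (P i)) = 0)
    (h0 : ∀ s : Fin M → Fin d, g (fun i => Q i (s i)) = 0) : g P = 0 := by
  classical
  have key : ∀ n : ℕ, n ≤ M → ∀ x : Fin M → X, (∀ j : Fin M, (j : ℕ) < n → x j = P j) →
      (∀ j : Fin M, n ≤ (j : ℕ) → ∃ s, x j = Q j s) → g x = 0 := by
    intro n
    induction n with
    | zero =>
      intro _ x _ hx
      choose s hs using fun j => hx j (Nat.zero_le _)
      rw [show x = fun i => Q i (s i) from funext hs]
      exact h0 s
    | succ n ih =>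
      intro hn x h1 h2
      let i : Fin M := ⟨n, hn⟩
      have hxi : Function.update x i (P i) = x := by
        rw [← h1 i (Nat.lt_succ_self n), Function.update_eq_self]
      rw [← hxi]
      refine hv i x (fun j hj => h1 j (Nat.lt_succ_of_lt hj)) (fun j hj => h2 j hj) ?_
      intro s
      refine ih (Nat.le_of_succ_le hn) _ ?_ ?_
      · intro j hj
        have hji : j ≠ i := fun h => by
          rw [h] at hj
          exact lt_irrefl _ hj
        rw [Function.update_of_ne hji]
        exact h1 j (Nat.lt_succ_of_lt hj)
      · intro j hj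
        by_cases hji : j = i
        · subst hji
          exact ⟨s, by rw [Function.update_self]⟩
        · rw [Function.update_of_ne hji]
          refine h2 j (Nat.succ_le_of_lt (lt_of_le_of_ne hj fun h => hji ?_))
          exact Fin.ext h.symm
  exact key M le_rfl P (fun _ _ => rfl) fun j hj => absurd j.2 (not_lt.2 hj)

/-- **Grid lemma.** `f_1, .., f_m` functions of `M` variables, `m > d^M`, with values in `K` on the
grid `Q`, such that every combination with coefficients in `K` is of degree `< d` in each variable in
the sense of `grid_vanish`: a nontrivial combination vanishes at `P`. -/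
theorem grid {K Ω X : Type*} [Field K] [Field Ω] [Algebra K Ω] {M d m : ℕ} (hm : d ^ M < m)
    (f : Fin m → (Fin M → X) → Ω) (Q : Fin M → Fin d → X) (P : Fin M → X)
    (hQ : ∀ (l : Fin m) (s : Fin M → Fin d), ∃ a : K, algebraMap K Ω a = f l (fun i => Q i (s i)))
    (hv : ∀ (c : Fin m → K) (i : Fin M) (x : Fin M → X), (∀ j < i, x j = P j) →
      (∀ j, i < j → ∃ s, x j = Q j s) →
      (∀ s, ∑ l, c l • f l (Function.update x i (Q i s)) = 0) →
        ∑ l, c l • f l (Function.update x i (P i)) = 0) :
    ∃ c : Fin m → K, c ≠ 0 ∧ ∑ l, c l • f l P = 0 := by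
  choose a ha using hQ
  let A : (Fin m → K) →ₗ[K] ((Fin M → Fin d) → K) :=
    LinearMap.pi fun s => ∑ l, a l s • LinearMap.proj l
  have hlt : Module.finrank K ((Fin M → Fin d) → K) < Module.finrank K (Fin m → K) := by
    rw [Module.finrank_fintype_fun_eq_card, Module.finrank_fintype_fun_eq_card]
    simpa using hm
  obtain ⟨c, hc, hne⟩ := Submodule.exists_mem_ne_zero_of_ne_bot
    (LinearMap.ker_ne_bot_of_finrank_lt (f := A) hlt)
  refine ⟨c, hne, grid_vanish (fun x => ∑ l, c l • f l x) Q P (hv c) fun s => ?_⟩
  have h1 : ∑ l, a l s * c l = 0 := by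
    have := congrFun (LinearMap.mem_ker.1 hc) s
    simpa [A] using this
  have h2 : ∀ l, c l • f l (fun i => Q i (s i)) = algebraMap K Ω (a l s * c l) := by
    intro l
    rw [← ha, Algebra.smul_def, ← map_mul, mul_comm]
  simp only [h2, ← map_sum, h1, map_zero]

end Pool.Agent.TIFP
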